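import Pool.Agent.TH622.Flow0

/-!
# Equivariant isotopies of regular level sets
-/

set_option autoImplicit false
set_option linter.unusedSectionVars false

open Set Filter Topology Metric Function
open scoped ContDiff NNReal

noncomputable section

namespace Pool.Agent.K7.H28.EQ

variable {V : Type} [NormedAddCommGroup V] [InnerProductSpace ℝ V] [FiniteDimensional ℝ V]

/-- the affine isometry given by a linear isometry and a vector -/
def act (γ : (V ≃ₗᵢ[ℝ] V) × V) (x : V) : V := γ.1 x + γ.2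

theorem act_sub (γ : (V ≃ₗᵢ[ℝ] V) × V) (x y : V) : act γ x - act γ y = γ.1 (x - y) := by
  unfold act
  rw [map_sub]
  abel

theorem act_dist (γ : (V ≃ₗᵢ[ℝ] V) × V) (x y : V) : ‖act γ x - act γ y‖ = ‖x - y‖ := by
  rw [act_sub, γ.1.norm_map]

theorem act_add (γ : (V ≃ₗᵢ[ℝ] V) × V) (x v : V) : act γ (x + v) = act γ x + γ.1 v := by
  unfold act
  rw [map_add]
  abel

/-- the inverse -/
def ain (γ : (V ≃ₗᵢ[ℝ] V) × V) (x : V) : V := γ.1.symm (x - γ.2)

theorem act_ain (γ : (V ≃ₗᵢ[ℝ] V) × V) (x : V) : act γ (ain γ x) = x := by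
  unfold act ain
  rw [LinearIsometryEquiv.apply_symm_apply, sub_add_cancel]

theorem act_hasFDerivAt (γ : (V ≃ₗᵢ[ℝ] V) × V) (x : V) :
    HasFDerivAt (act γ) (γ.1.toContinuousLinearEquiv : V →L[ℝ] V) x := by
  unfold act
  exact (γ.1.toContinuousLinearEquiv : V →L[ℝ] V).hasFDerivAt.add_const γ.2

/-- the partial derivatives -/
def pd (F : V × ℝ → ℝ) (i : Fin (Module.finrank ℝ V)) (q : V × ℝ) : ℝ :=
  fderiv ℝ F q (stdOrthonormalBasis ℝ V i, 0)

/-- the gradient in the space directions -/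
def grd (F : V × ℝ → ℝ) (q : V × ℝ) : V := ∑ i, pd F i q • stdOrthonormalBasis ℝ V i

/-- its square norm -/
def sq (F : V × ℝ → ℝ) (q : V × ℝ) : ℝ := inner ℝ (grd F q) (grd F q)

theorem pd_smooth {F : V × ℝ → ℝ} (hF : ContDiff ℝ ∞ F) (i : Fin (Module.finrank ℝ V)) :
    ContDiff ℝ ∞ (pd F i) := by
  unfold pd
  exact (hF.fderiv_right (m := ∞) (by simp)).clm_apply contDiff_const

theorem grd_smooth {F : V × ℝ → ℝ} (hF : ContDiff ℝ ∞ F) : ContDiff ℝ ∞ (grd F) := by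
  unfold grd
  exact ContDiff.sum fun i _ => (pd_smooth hF i).smul contDiff_const

theorem sq_smooth {F : V × ℝ → ℝ} (hF : ContDiff ℝ ∞ F) : ContDiff ℝ ∞ (sq F) := by
  unfold sq
  exact (grd_smooth hF).inner ℝ (grd_smooth hF)

theorem inner_grd (F : V × ℝ → ℝ) (q : V × ℝ) (v : V) :
    inner ℝ (grd F q) v = fderiv ℝ F q (v, 0) := by
  have h1 : ((v, 0) : V × ℝ) = ∑ i, (inner ℝ (stdOrthonormalBasis ℝ V i) v : ℝ) •
      ((stdOrthonormalBasis ℝ V i, 0) : V × ℝ) := by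
    apply Prod.ext
    · simp only [Prod.fst_sum, Prod.smul_fst]
      exact ((stdOrthonormalBasis ℝ V).sum_repr' v).symm
    · simp only [Prod.snd_sum, Prod.smul_snd, smul_zero, Finset.sum_const_zero]
  rw [h1, map_sum]
  unfold grd
  rw [sum_inner]
  refine Finset.sum_congr rfl fun i _ => ?_
  rw [map_smul, smul_eq_mul, real_inner_smul_left, mul_comm]
  rfl

theorem fderiv_grd (F : V × ℝ → ℝ) (q : V × ℝ) : fderiv ℝ F q (grd F q, 0) = sq F q :=
  (inner_grd F q _).symm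

theorem sq_nonneg' (F : V × ℝ → ℝ) (q : V × ℝ) : 0 ≤ sq F q := real_inner_self_nonneg

theorem sq_ne {F : V × ℝ → ℝ} {q : V × ℝ} {v : V} (h : fderiv ℝ F q (v, 0) ≠ 0) :
    sq F q ≠ 0 := by
  intro h0
  apply h
  unfold sq at h0
  rw [← inner_grd, inner_self_eq_zero.1 h0, inner_zero_left]

/-- the action on the product with the time -/
def act2 (γ : (V ≃ₗᵢ[ℝ] V) × V) (q : V × ℝ) : V × ℝ := (act γ q.1, q.2)

/-- its derivative -/
def lin2 (γ : (V ≃ₗᵢ[ℝ] V) × V) : V × ℝ →L[ℝ] V × ℝ :=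
  ((γ.1.toContinuousLinearEquiv : V →L[ℝ] V).comp (ContinuousLinearMap.fst ℝ V ℝ)).prod
    (ContinuousLinearMap.snd ℝ V ℝ)

theorem lin2_apply (γ : (V ≃ₗᵢ[ℝ] V) × V) (w : V × ℝ) : lin2 γ w = (γ.1 w.1, w.2) := rfl

theorem lin2_norm (γ : (V ≃ₗᵢ[ℝ] V) × V) (w : V × ℝ) : ‖lin2 γ w‖ = ‖w‖ := by
  rw [lin2_apply, Prod.norm_def, Prod.norm_def, γ.1.norm_map]

theorem act2_hasFDerivAt (γ : (V ≃ₗᵢ[ℝ] V) × V) (q : V × ℝ) :
    HasFDerivAt (act2 γ) (lin2 γ) q := by
  have h1 : HasFDerivAt (fun q : V × ℝ => act γ q.1)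
      ((γ.1.toContinuousLinearEquiv : V →L[ℝ] V).comp (ContinuousLinearMap.fst ℝ V ℝ)) q :=
    (act_hasFDerivAt γ q.1).comp q hasFDerivAt_fst
  exact h1.prodMk hasFDerivAt_snd

theorem fderiv_inv {F : V × ℝ → ℝ} (hF : ContDiff ℝ ∞ F) {γ : (V ≃ₗᵢ[ℝ] V) × V}
    (hinv : ∀ q, F (act2 γ q) = F q) (q w : V × ℝ) :
    fderiv ℝ F (act2 γ q) (lin2 γ w) = fderiv ℝ F q w := by
  have h1 : HasFDerivAt F (fderiv ℝ F (act2 γ q)) (act2 γ q) :=
    ((hF.differentiable (by simp)) _).hasFDerivAt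
  have h2 := h1.comp q (act2_hasFDerivAt γ q)
  have h3 : (F ∘ act2 γ) = F := funext fun q => hinv q
  rw [h3] at h2
  have h4 := ((hF.differentiable (by simp)) q).hasFDerivAt.unique h2
  rw [h4]
  rfl

theorem grd_inv {F : V × ℝ → ℝ} (hF : ContDiff ℝ ∞ F) {γ : (V ≃ₗᵢ[ℝ] V) × V}
    (hinv : ∀ q, F (act2 γ q) = F q) (q : V × ℝ) : grd F (act2 γ q) = γ.1 (grd F q) := by
  refine ext_inner_right ℝ fun v => ?_
  obtain ⟨w, rfl⟩ := γ.1.surjective v
  rw [inner_grd, γ.1.inner_map_map, inner_grd]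
  have := fderiv_inv hF hinv q (w, 0)
  rw [lin2_apply] at this
  exact this

theorem sq_inv {F : V × ℝ → ℝ} (hF : ContDiff ℝ ∞ F) {γ : (V ≃ₗᵢ[ℝ] V) × V}
    (hinv : ∀ q, F (act2 γ q) = F q) (q : V × ℝ) : sq F (act2 γ q) = sq F q := by
  unfold sq
  rw [grd_inv hF hinv, γ.1.inner_map_map]

/-- equivariant isotopy of regular level sets, for functions which are constant in time outside the
unit interval -/
theorem level_aux (Γ : Set ((V ≃ₗᵢ[ℝ] V) × V)) (F : V × ℝ → ℝ) (hF : ContDiff ℝ ∞ F)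
    (hinv : ∀ γ ∈ Γ, ∀ q, F (act2 γ q) = F q) (K : Set V) (hK : IsCompact K) {c : ℝ} (hc : 0 < c)
    (hfar : ∀ x t, |F (x, t)| < c → ∃ γ ∈ Γ, act γ x ∈ K)
    (h0 : ∀ x t, t ≤ 0 → F (x, t) = F (x, 0)) (h1 : ∀ x t, 1 ≤ t → F (x, t) = F (x, 1))
    (hreg : ∀ x t, 0 ≤ t → t ≤ 1 → F (x, t) = 0 → ∃ v : V, fderiv ℝ F (x, t) (v, 0) ≠ 0) :
    ∃ Φ Ψ : V → V, ContDiff ℝ ∞ Φ ∧ ContDiff ℝ ∞ Ψ ∧ (∀ x, Ψ (Φ x) = x) ∧
      (∀ x, Φ (Ψ x) = x) ∧ (∀ γ ∈ Γ, ∀ x, Φ (act γ x) = act γ (Φ x)) ∧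
      (∀ x, (∀ γ ∈ Γ, act γ x ∉ K) → Φ x = x) ∧
      ∀ x, (0 < F (Φ x, 1) ↔ 0 < F (x, 0)) ∧ (F (Φ x, 1) < 0 ↔ F (x, 0) < 0) := by
  -- a bound from below
  have hlow : ∃ c₁ : ℝ, 0 < c₁ ∧ c₁ ≤ c ∧ ∀ x t, 0 ≤ t → t ≤ 1 → |F (x, t)| < c₁ →
      c₁ ≤ sq F (x, t) := by
    have key : ∃ m : ℝ, 0 < m ∧ ∀ q ∈ K ×ˢ Icc (0 : ℝ) 1, m ≤ max |F q| (sq F q) := by
      rcases (K ×ˢ Icc (0 : ℝ) 1).eq_empty_or_nonempty with he | hne
      · exact ⟨1, one_pos, fun q hq => by rw [he] at hq; exact absurd hq (notMem_empty q)⟩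
      · obtain ⟨q₀, hq₀, hmin⟩ := (hK.prod isCompact_Icc).exists_isMinOn hne
          ((hF.continuous.abs.max (sq_smooth hF).continuous).continuousOn)
        refine ⟨max |F q₀| (sq F q₀), ?_, fun q hq => hmin hq⟩
        by_cases hz : F q₀ = 0
        · obtain ⟨v, hv⟩ := hreg q₀.1 q₀.2 hq₀.2.1 hq₀.2.2 hz
          exact lt_max_of_lt_right (lt_of_le_of_ne (sq_nonneg' F q₀) (Ne.symm (sq_ne hv)))
        · exact lt_max_of_lt_left (abs_pos.2 hz)
    obtain ⟨m, hm, hmK⟩ := key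
    refine ⟨min m c, lt_min hm hc, min_le_right _ _, fun x t ht0 ht1 hlt => ?_⟩
    obtain ⟨γ, hγ, hx⟩ := hfar x t (hlt.trans_le (min_le_right _ _))
    have h2 := hmK (act2 γ (x, t)) ⟨hx, ht0, ht1⟩
    rw [hinv γ hγ, sq_inv hF (hinv γ hγ)] at h2
    rcases le_max_iff.1 h2 with h3 | h3
    · exact absurd hlt (not_lt.2 ((min_le_left _ _).trans h3))
    · exact (min_le_left _ _).trans h3
  obtain ⟨c₁, hc₁, hc₁c, hlow⟩ := hlow
  -- the cutoff function
  let b : ContDiffBump (0 : ℝ) := ⟨c₁ / 3, c₁ / 2, by positivity, by linarith⟩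
  obtain ⟨α, hα⟩ : ∃ α : ℝ → ℝ, α = fun u => b u := ⟨_, rfl⟩
  have hαs : ContDiff ℝ ∞ α := by rw [hα]; exact b.contDiff
  have hα0 : ∀ u, c₁ / 2 ≤ |u| → α u = 0 := fun u hu => by
    rw [hα]
    exact b.zero_of_le_dist (by rw [dist_zero_right]; exact hu)
  have hα1 : ∀ u, |u| ≤ c₁ / 3 → α u = 1 := fun u hu => by
    rw [hα]
    exact b.one_of_mem_closedBall (by rw [mem_closedBall_zero_iff]; exact hu)
  obtain ⟨dt, hdt⟩ : ∃ dt : V × ℝ → ℝ, dt = fun q => fderiv ℝ F q ((0 : V), (1 : ℝ)) := ⟨_, rfl⟩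
  have hdts : ContDiff ℝ ∞ dt := by
    rw [hdt]
    exact (hF.fderiv_right (m := ∞) (by simp)).clm_apply contDiff_const
  have hdtd : ∀ q : V × ℝ, HasDerivAt (fun t => F (q.1, t)) (dt q) q.2 := by
    intro q
    have e1 : HasDerivAt (fun t : ℝ => (q.1, t)) ((0 : V), (1 : ℝ)) q.2 :=
      (hasDerivAt_const _ _).prodMk (hasDerivAt_id _)
    have e2 : HasFDerivAt F (fderiv ℝ F q) (q.1, q.2) :=
      ((hF.differentiable (by simp)) q).hasFDerivAt
    rw [hdt]
    exact e2.comp_hasDerivAt q.2 e1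
  -- the time derivative vanishes outside of the unit interval
  have hdt0 : ∀ q : V × ℝ, q.2 < 0 ∨ 1 < q.2 → dt q = 0 := by
    intro q hq
    have e1 : (fun t => F (q.1, t)) =ᶠ[𝓝 q.2] fun _ => F q := by
      rcases hq with hq | hq
      · filter_upwards [isOpen_Iio.mem_nhds hq] with t ht
        rw [h0 q.1 t (le_of_lt ht), ← h0 q.1 q.2 hq.le]
      · filter_upwards [isOpen_Ioi.mem_nhds hq] with t ht
        rw [h1 q.1 t (le_of_lt ht), ← h1 q.1 q.2 hq.le]
    exact ((hdtd q).congr_of_eventuallyEq e1.symm).unique (hasDerivAt_const _ _)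
  obtain ⟨m, hmd⟩ : ∃ m : V × ℝ → ℝ, m = fun q => -dt q * (α (F q) * (sq F q)⁻¹) := ⟨_, rfl⟩
  -- local structure of `m`
  have hloc : ∀ q : V × ℝ, ((0 ≤ q.2 ∧ q.2 ≤ 1) ∧ |F q| < c₁) ∨ ∀ᶠ y in 𝓝 q, m y = 0 := by
    intro q
    by_cases ht : 0 ≤ q.2 ∧ q.2 ≤ 1
    · rcases lt_or_ge |F q| c₁ with hlt | hge
      · exact Or.inl ⟨ht, hlt⟩
      · right
        have h2 : ∀ᶠ y in 𝓝 q, c₁ / 2 < |F y| :=
          hF.continuous.abs.continuousAt.eventually_const_lt (by linarith)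
        filter_upwards [h2] with y hy
        rw [hmd]
        simp only [hα0 _ hy.le, zero_mul, mul_zero]
    · right
      have ht' : q.2 < 0 ∨ 1 < q.2 := by
        by_contra hn
        push Not at hn
        exact ht hn
      have h2 : ∀ᶠ y in 𝓝 q, y.2 < 0 ∨ 1 < y.2 := by
        rcases ht' with ht' | ht'
        · filter_upwards [continuous_snd.continuousAt.eventually_lt_const ht'] with y hy
          exact Or.inl hy
        · filter_upwards [continuous_snd.continuousAt.eventually_const_lt ht'] with y hy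
          exact Or.inr hy
      filter_upwards [h2] with y hy
      rw [hmd]
      simp only [hdt0 y hy, neg_zero, zero_mul]
  have hm : ContDiff ℝ ∞ m := by
    rw [contDiff_iff_contDiffAt]
    intro q
    rcases hloc q with ⟨⟨ht0, ht1⟩, hlt⟩ | h2
    · rw [hmd]
      have hs : sq F q ≠ 0 := by
        have := hlow q.1 q.2 ht0 ht1 hlt
        exact (hc₁.trans_le this).ne'
      exact hdts.neg.contDiffAt.mul ((hαs.comp hF).contDiffAt.mul
        ((sq_smooth hF).contDiffAt.inv hs))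
    · exact contDiffAt_const.congr_of_eventuallyEq h2
  have hminv : ∀ γ ∈ Γ, ∀ q, m (act2 γ q) = m q := by
    intro γ hγ q
    rw [hmd]
    simp only
    rw [hinv γ hγ, sq_inv hF (hinv γ hγ)]
    have e1 := fderiv_inv hF (hinv γ hγ) q ((0 : V), (1 : ℝ))
    rw [lin2_apply, map_zero] at e1
    have e2 : dt (act2 γ q) = dt q := by rw [hdt]; exact e1
    rw [e2]
  obtain ⟨W, hWd⟩ : ∃ W : V × ℝ → V, W = fun q => m q • grd F q := ⟨_, rfl⟩
  have hW : ContDiff ℝ ∞ W := by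
    rw [hWd]
    exact hm.smul (grd_smooth hF)
  have hWinv : ∀ γ ∈ Γ, ∀ q, W (act2 γ q) = γ.1 (W q) := by
    intro γ hγ q
    rw [hWd]
    simp only
    rw [hminv γ hγ, grd_inv hF (hinv γ hγ), map_smul]
  -- the derivative of `W` is bounded
  obtain ⟨C, hC⟩ := (hK.prod (isCompact_Icc (a := (0 : ℝ)) (b := 1))).exists_bound_of_continuousOn
    (hW.continuous_fderiv (by simp)).continuousOn
  have hC0 : ∀ q, ‖fderiv ℝ W q‖ ≤ max C 0 := by
    intro q
    rcases hloc q with ⟨⟨ht0, ht1⟩, hlt⟩ | h2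
    · obtain ⟨γ, hγ, hx⟩ := hfar q.1 q.2 (hlt.trans_le hc₁c)
      have e1 : HasFDerivAt W (fderiv ℝ W (act2 γ q)) (act2 γ q) :=
        ((hW.differentiable (by simp)) _).hasFDerivAt
      have e2 := e1.comp q (act2_hasFDerivAt γ q)
      have e3 : HasFDerivAt W (fderiv ℝ W q) q := ((hW.differentiable (by simp)) _).hasFDerivAt
      have e4 := (γ.1.toContinuousLinearEquiv : V →L[ℝ] V).hasFDerivAt.comp q e3
      have e5 : (W ∘ act2 γ) = ⇑(γ.1.toContinuousLinearEquiv : V →L[ℝ] V) ∘ W :=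
        funext fun q => hWinv γ hγ q
      rw [e5] at e2
      have e6 := e4.unique e2
      refine ContinuousLinearMap.opNorm_le_bound _ (le_max_right _ _) fun w => ?_
      have e7 := congrArg (fun L => ‖L w‖) e6
      simp only [ContinuousLinearMap.comp_apply] at e7
      have e8 : ‖(γ.1.toContinuousLinearEquiv : V →L[ℝ] V) (fderiv ℝ W q w)‖ =
          ‖fderiv ℝ W q w‖ := γ.1.norm_map _
      rw [e8] at e7
      rw [e7]
      have e9 := (fderiv ℝ W (act2 γ q)).le_opNorm (lin2 γ w)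
      rw [lin2_norm] at e9
      refine e9.trans (mul_le_mul_of_nonneg_right ?_ (norm_nonneg _))
      exact (hC (act2 γ q) ⟨hx, ht0, ht1⟩).trans (le_max_left _ _)
    · have e1 : W =ᶠ[𝓝 q] fun _ => 0 := by
        filter_upwards [h2] with y hy
        rw [hWd]
        simp only [hy, zero_smul]
      have e2 : HasFDerivAt W (0 : V × ℝ →L[ℝ] V) q :=
        (hasFDerivAt_const (0 : V) q).congr_of_eventuallyEq e1
      refine ContinuousLinearMap.opNorm_le_bound _ (le_max_right _ _) fun w => ?_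
      rw [e2.fderiv]
      have e3 : ‖(0 : V × ℝ →L[ℝ] V) w‖ = 0 := norm_eq_zero.2 rfl
      rw [e3]
      exact mul_nonneg (le_max_right _ _) (norm_nonneg _)
  have hWL : LipschitzWith (Real.toNNReal (max C 0)) W :=
    lipschitzWith_of_nnnorm_fderiv_le (hW.differentiable (by simp)) fun q => by
      rw [← NNReal.coe_le_coe, coe_nnnorm, Real.coe_toNNReal _ (le_max_right _ _)]
      exact hC0 q
  obtain ⟨L, hL⟩ : ∃ L : ℝ≥0, L = Real.toNNReal (max C 0) := ⟨_, rfl⟩
  rw [← hL] at hWL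
  obtain ⟨X, hXd⟩ : ∃ X : V × ℝ → V × ℝ, X = fun q => (W q, 1) := ⟨_, rfl⟩
  have hX : ContDiff ℝ ∞ X := by
    rw [hXd]
    exact hW.prodMk contDiff_const
  have hXL : LipschitzWith L X := by
    rw [hXd]
    refine LipschitzWith.of_dist_le_mul fun p q => ?_
    rw [Prod.dist_eq, dist_self]
    exact max_le (hWL.dist_le_mul p q) (by positivity)
  obtain ⟨g, hg⟩ := Pool.Agent.TH622.exists_flow hX hXL
  have hgs : ContDiff ℝ ∞ (fun p : ℝ × (V × ℝ) => g p.1 p.2) := by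
    rw [contDiff_infty]
    intro k
    have h1 := Pool.Agent.GR.Flow.contDiff_flow (X := ⟨X, hX.continuous⟩) (m := k + 1)
      (Nat.succ_ne_zero k) (hX.of_le (by exact_mod_cast le_top)) hXL hg
    exact h1.of_le (by exact_mod_cast Nat.le_succ k)
  -- the second component
  have hsnd : ∀ (q : V × ℝ) (t : ℝ), (g t q).2 = q.2 + t := by
    intro q t
    have h1 : ∀ s, HasDerivAt (fun s => (g s q).2 - s) 0 s := by
      intro s
      have h2 := (hg.deriv q s)
      have h3 : HasDerivAt (fun s => (g s q).2) (X (g s q)).2 s := by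
        have := (ContinuousLinearMap.snd ℝ V ℝ).hasFDerivAt.comp_hasDerivAt s h2
        exact this
      have h4 := h3.sub (hasDerivAt_id s)
      rw [hXd] at h4
      exact h4.congr_deriv (by simp)
    have h5 : (g t q).2 - t = (g 0 q).2 - 0 :=
      is_const_of_deriv_eq_zero (fun s => (h1 s).differentiableAt) (fun s => (h1 s).deriv) t 0
    rw [hg.zero] at h5
    linarith
  have hpair : ∀ (q : V × ℝ) (t : ℝ), g t q = ((g t q).1, q.2 + t) := fun q t =>
    Prod.ext rfl (hsnd q t)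
  have huniq : ∀ (x : V) (f : ℝ → V), f 0 = x → (∀ t, HasDerivAt f (W (f t, t)) t) →
      ∀ t, (g t (x, 0)).1 = f t := by
    intro x f hf0 hf t
    have h1 : (fun t : ℝ => g t (x, (0 : ℝ))) = fun t => (f t, t) := by
      refine ODE_solution_unique_univ (v := fun _ => X) (s := fun _ => univ) (K := L) (t₀ := 0)
        (fun t => hXL.lipschitzOnWith) (fun t => ⟨hg.deriv _ t, trivial⟩) (fun t => ⟨?_, trivial⟩) ?_
      · rw [hXd]
        exact (hf t).prodMk (hasDerivAt_id t)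
      · rw [hg.zero, hf0]
    have h2 := congrFun h1 t
    rw [h2]
  refine ⟨fun x => (g 1 (x, 0)).1, fun x => (g (-1) (x, 1)).1, ?_, ?_, ?_, ?_, ?_, ?_, ?_⟩
  · have h1 : ContDiff ℝ ∞ fun x : V => ((1 : ℝ), (x, (0 : ℝ))) := by fun_prop
    exact contDiff_fst.comp (hgs.comp h1)
  · have h1 : ContDiff ℝ ∞ fun x : V => ((-1 : ℝ), (x, (1 : ℝ))) := by fun_prop
    exact contDiff_fst.comp (hgs.comp h1)
  · intro x
    change (g (-1) ((g 1 (x, 0)).1, 1)).1 = x
    have h1 : ((g 1 (x, 0)).1, (1 : ℝ)) = g 1 (x, 0) := by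
      have := hpair (x, 0) 1
      simp only [zero_add] at this
      exact this.symm
    rw [h1, ← hg.add hXL, neg_add_cancel, hg.zero]
  · intro x
    change (g 1 ((g (-1) (x, 1)).1, 0)).1 = x
    have h1 : ((g (-1) (x, 1)).1, (0 : ℝ)) = g (-1) (x, 1) := by
      have := hpair (x, 1) (-1)
      simp only [add_neg_cancel] at this
      exact this.symm
    rw [h1, ← hg.add hXL, add_neg_cancel, hg.zero]
  · intro γ hγ x
    change (g 1 (act γ x, 0)).1 = act γ (g 1 (x, 0)).1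
    refine huniq (act γ x) (fun t => act γ (g t (x, 0)).1) (by simp only [hg.zero]) (fun t => ?_) 1
    have h2 : HasDerivAt (fun t => (g t (x, 0)).1) (W ((g t (x, 0)).1, t)) t := by
      have h3 := (ContinuousLinearMap.fst ℝ V ℝ).hasFDerivAt.comp_hasDerivAt t (hg.deriv (x, 0) t)
      have h4 : X (g t (x, 0)) = (W ((g t (x, 0)).1, t), 1) := by
        rw [hXd]
        have := hpair (x, 0) t
        rw [zero_add] at this
        simp only
        rw [← this]
      rw [h4] at h3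
      exact h3
    have h5 := (act_hasFDerivAt γ (g t (x, 0)).1).comp_hasDerivAt t h2
    have h6 := hWinv γ hγ ((g t (x, 0)).1, t)
    have h7 : act2 γ ((g t (x, 0)).1, t) = (act γ (g t (x, 0)).1, t) := rfl
    rw [h7] at h6
    rw [h6]
    exact h5
  · intro x hx
    change (g 1 (x, 0)).1 = x
    refine huniq x (fun _ => x) rfl (fun t => ?_) 1
    have h2 : m (x, t) = 0 := by
      rcases hloc (x, t) with ⟨_, hlt⟩ | h2
      · obtain ⟨γ, hγ, hxK⟩ := hfar x t (hlt.trans_le hc₁c)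
        exact absurd hxK (hx γ hγ)
      · exact h2.self_of_nhds
    have h3 : W (x, t) = 0 := by
      rw [hWd]
      simp only [h2, zero_smul]
    rw [h3]
    exact hasDerivAt_const t x
  · -- the sign
    intro x
    obtain ⟨a, had⟩ : ∃ a : ℝ → ℝ, a = fun t => F (g t (x, 0)) := ⟨_, rfl⟩
    have hder : ∀ t, HasDerivAt a (fderiv ℝ F (g t (x, 0)) (X (g t (x, 0)))) t := by
      intro t
      rw [had]
      have h1 : HasFDerivAt F (fderiv ℝ F (g t (x, 0))) (g t (x, 0)) :=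
        ((hF.differentiable (by simp)) _).hasFDerivAt
      exact h1.comp_hasDerivAt t (hg.deriv (x, 0) t)
    have hac : Continuous a := continuous_iff_continuousAt.2 fun t => (hder t).continuousAt
    have hX0 : ∀ q : V × ℝ, |F q| ≤ c₁ / 3 → fderiv ℝ F q (X q) = 0 := by
      intro q hq
      have h1 : X q = (W q, 0) + (0, 1) := by rw [hXd]; simp
      have h2 : fderiv ℝ F q (W q, 0) = m q * sq F q := by
        rw [hWd]
        have h3 : ((m q • grd F q, 0) : V × ℝ) = m q • ((grd F q, 0) : V × ℝ) := by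
          rw [Prod.smul_mk, smul_zero]
        simp only
        rw [h3, map_smul, fderiv_grd, smul_eq_mul]
      rw [h1, map_add, h2]
      have h4 : fderiv ℝ F q ((0 : V), (1 : ℝ)) = dt q := by rw [hdt]
      rw [h4]
      by_cases ht : 0 ≤ q.2 ∧ q.2 ≤ 1
      · have hs := hlow q.1 q.2 ht.1 ht.2 (by linarith)
        have hs0 : sq F q ≠ 0 := (hc₁.trans_le hs).ne'
        rw [hmd]
        simp only
        rw [hα1 _ hq, one_mul, mul_assoc, inv_mul_cancel₀ hs0]
        ring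
      · have ht' : q.2 < 0 ∨ 1 < q.2 := by
          by_contra hn
          push Not at hn
          exact ht hn
        rw [hmd]
        simp only
        rw [hdt0 q ht']
        ring
    have hlocz : ∀ t, a t = 0 → ∀ᶠ s in 𝓝 t, a s = 0 := by
      intro t hat
      have hgc : Continuous fun s : ℝ => g s (x, (0 : ℝ)) := hg.continuous _
      have h2 : ∀ᶠ s in 𝓝 t, |F (g s (x, 0))| < c₁ / 3 := by
        refine (hF.continuous.comp hgc).abs.continuousAt.eventually_lt_const ?_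
        have h3 : F (g t (x, 0)) = 0 := by rw [had] at hat; exact hat
        change |F (g t (x, 0))| < c₁ / 3
        rw [h3, abs_zero]
        positivity
      obtain ⟨ε, hε, hb⟩ := Metric.eventually_nhds_iff_ball.1 h2
      refine Metric.eventually_nhds_iff_ball.2 ⟨ε, hε, fun s hs => ?_⟩
      have h4 : ∀ r ∈ ball t ε, HasDerivWithinAt a 0 (ball t ε) r := by
        intro r hr
        have h5 := hder r
        rw [hX0 _ (hb r hr).le] at h5
        exact h5.hasDerivWithinAt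
      have h6 := (convex_ball t ε).is_const_of_fderivWithin_eq_zero (𝕜 := ℝ) (f := a)
        (fun r hr => (h4 r hr).differentiableWithinAt) (fun r hr => by
          have h7 := (h4 r hr).hasFDerivWithinAt.fderivWithin
            (isOpen_ball.uniqueDiffWithinAt hr)
          rw [h7]
          ext
          simp) hs (mem_ball_self hε)
      rw [h6, hat]
    have hclo : ∀ t, a t = 0 → ∀ s, a s = 0 := by
      intro t hat s
      by_contra hs
      have hO1 : IsOpen {r | ∀ᶠ y in 𝓝 r, a y = 0} := isOpen_setOfPred_eventually_nhds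
      have hO2 : IsOpen {r | a r ≠ 0} := isOpen_ne_fun hac continuous_const
      obtain ⟨r, _, hr1, hr2⟩ := isPreconnected_univ _ _ hO1 hO2 (fun r _ => by
        by_cases h : a r = 0
        · exact Or.inl (hlocz r h)
        · exact Or.inr h) ⟨t, trivial, hlocz t hat⟩ ⟨s, trivial, hs⟩
      exact hr2 hr1.self_of_nhds
    have ha0 : a 0 = F (x, 0) := by rw [had]; simp only [hg.zero]
    have ha1 : a 1 = F ((g 1 (x, 0)).1, 1) := by
      rw [had]
      have h2 := hpair (x, 0) 1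
      rw [zero_add] at h2
      simp only
      rw [← h2]
    rw [← ha0, ← ha1]
    by_cases hz : a 0 = 0
    · rw [hz, hclo 0 hz 1]
      exact ⟨Iff.rfl, Iff.rfl⟩
    · have hnz : ∀ s, a s ≠ 0 := fun s h2 => hz (hclo s h2 0)
      have hsg : ∀ s s', 0 < a s → 0 < a s' := by
        intro s s' hs
        by_contra hn
        have hn' : a s' < 0 := lt_of_le_of_ne (not_lt.1 hn) (hnz s')
        obtain ⟨r, _, hr0⟩ := isPreconnected_univ.intermediate_value (trivial : s' ∈ univ)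
          (trivial : s ∈ univ) hac.continuousOn ⟨hn'.le, hs.le⟩
        exact hnz r hr0
      refine ⟨⟨hsg 1 0, hsg 0 1⟩, ?_⟩
      constructor
      · intro h
        rcases lt_or_gt_of_ne (hnz 0) with h' | h'
        · exact h'
        · exact absurd (hsg 0 1 h') (not_lt.2 h.le)
      · intro h
        rcases lt_or_gt_of_ne (hnz 1) with h' | h'
        · exact h'
        · exact absurd (hsg 1 0 h') (not_lt.2 h.le)

/-- **equivariant isotopy of regular level sets** -/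
theorem level_isoE (Γ : Set ((V ≃ₗᵢ[ℝ] V) × V)) (F : V × ℝ → ℝ) (hF : ContDiff ℝ ∞ F)
    (hinv : ∀ γ ∈ Γ, ∀ x t, F (act γ x, t) = F (x, t)) (K : Set V) (hK : IsCompact K) {c : ℝ}
    (hc : 0 < c) (hfar : ∀ x t, 0 ≤ t → t ≤ 1 → |F (x, t)| < c → ∃ γ ∈ Γ, act γ x ∈ K)
    (hreg : ∀ x t, 0 ≤ t → t ≤ 1 → F (x, t) = 0 → ∃ v : V, fderiv ℝ F (x, t) (v, 0) ≠ 0) :
    ∃ Φ Ψ : V → V, ContDiff ℝ ∞ Φ ∧ ContDiff ℝ ∞ Ψ ∧ (∀ x, Ψ (Φ x) = x) ∧
      (∀ x, Φ (Ψ x) = x) ∧ (∀ γ ∈ Γ, ∀ x, Φ (act γ x) = act γ (Φ x)) ∧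
      (∀ x, (∀ γ ∈ Γ, act γ x ∉ K) → Φ x = x) ∧
      ∀ x, (0 < F (Φ x, 1) ↔ 0 < F (x, 0)) ∧ (F (Φ x, 1) < 0 ↔ F (x, 0) < 0) := by
  obtain ⟨S, hS⟩ : ∃ S : ℝ → ℝ, S = Real.smoothTransition := ⟨_, rfl⟩
  have hSs : ContDiff ℝ ∞ S := by rw [hS]; exact Real.smoothTransition.contDiff
  have hS0 : ∀ t, 0 ≤ S t := fun t => by rw [hS]; exact Real.smoothTransition.nonneg t
  have hS1 : ∀ t, S t ≤ 1 := fun t => by rw [hS]; exact Real.smoothTransition.le_one t
  have hSz : ∀ t, t ≤ 0 → S t = 0 := fun t ht => by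
    rw [hS]
    exact Real.smoothTransition.zero_of_nonpos ht
  have hSo : ∀ t, 1 ≤ t → S t = 1 := fun t ht => by
    rw [hS]
    exact Real.smoothTransition.one_of_one_le ht
  obtain ⟨H, hH⟩ : ∃ H : V × ℝ → ℝ, H = fun q => F (q.1, S q.2) := ⟨_, rfl⟩
  have hHs : ContDiff ℝ ∞ H := by
    rw [hH]
    exact hF.comp (contDiff_fst.prodMk (hSs.comp contDiff_snd))
  obtain ⟨Φ, Ψ, a1, a2, a3, a4, a5, a6, a7⟩ := level_aux Γ H hHs (fun γ hγ q => by
      rw [hH]
      exact hinv γ hγ q.1 (S q.2)) K hK hc (fun x t h => by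
      rw [hH] at h
      exact hfar x (S t) (hS0 t) (hS1 t) h) (fun x t ht => by
      rw [hH]
      simp only
      rw [hSz t ht, hSz 0 le_rfl]) (fun x t ht => by
      rw [hH]
      simp only
      rw [hSo t ht, hSo 1 le_rfl]) (fun x t _ _ h => by
      rw [hH] at h
      obtain ⟨v, hv⟩ := hreg x (S t) (hS0 t) (hS1 t) h
      refine ⟨v, ?_⟩
      have e1 : HasFDerivAt F (fderiv ℝ F (x, S t)) (x, S t) :=
        ((hF.differentiable (by simp)) _).hasFDerivAt
      have e2 : HasDerivAt (fun b : ℝ => (x + b • v, S t)) (v, 0) 0 := by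
        have e1 : HasDerivAt (fun h : ℝ => x + h • v) ((1 : ℝ) • v) 0 :=
          ((hasDerivAt_id (0 : ℝ)).smul_const v).const_add x
        rw [one_smul] at e1
        exact e1.prodMk (hasDerivAt_const _ _)
      have e2' : HasDerivAt (fun b : ℝ => (x + b • v, t)) (v, 0) 0 := by
        have e1 : HasDerivAt (fun h : ℝ => x + h • v) ((1 : ℝ) • v) 0 :=
          ((hasDerivAt_id (0 : ℝ)).smul_const v).const_add x
        rw [one_smul] at e1
        exact e1.prodMk (hasDerivAt_const _ _)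
      have e3 : HasFDerivAt F (fderiv ℝ F (x, S t)) (x + (0 : ℝ) • v, S t) := by
        rw [zero_smul, add_zero]
        exact e1
      have e4 : HasFDerivAt H (fderiv ℝ H (x, t)) (x + (0 : ℝ) • v, t) := by
        rw [zero_smul, add_zero]
        exact ((hHs.differentiable (by simp)) _).hasFDerivAt
      have e5 := e3.comp_hasDerivAt (0 : ℝ) e2
      have e6 := e4.comp_hasDerivAt (0 : ℝ) e2'
      have e7 : (H ∘ fun b : ℝ => (x + b • v, t)) = F ∘ fun b : ℝ => (x + b • v, S t) := by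
        rw [hH]
        rfl
      rw [e7] at e6
      rw [e6.unique e5]
      exact hv)
  refine ⟨Φ, Ψ, a1, a2, a3, a4, a5, a6, fun x => ?_⟩
  have h1 := a7 x
  rw [hH] at h1
  simp only at h1
  rw [hSz 0 le_rfl, hSo 1 le_rfl] at h1
  exact h1

end Pool.Agent.K7.H28.EQ
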