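import Pool.Agent.K7.H28.EQ.A9

/-!
# The type is determined by finitely many signs
-/

set_option autoImplicit false
set_option linter.unusedSectionVars false

open Set Filter Topology Metric Function
open scoped ContDiff NNReal

noncomputable section

namespace Pool.Agent.K7.H28.EQ

variable {V : Type} [NormedAddCommGroup V] [InnerProductSpace ℝ V] [FiniteDimensional ℝ V]

theorem finite_signs {θ ε κ : ℝ} (hκ : 0 < κ) (hε : 0 ≤ ε) (Γ : Set ((V ≃ₗᵢ[ℝ] V) × V))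
    (key : ∀ (h k ρ : V → ℝ), DfnE Γ h → DfnE Γ k → Scl ε ρ →
      (∀ γ ∈ Γ, ∀ x, ρ (act γ x) = ρ x) →
      (∀ x, h x = 0 → ∀ r, 0 < r → r ≤ ρ x → ∃ ν : V, ‖ν‖ = 1 ∧ Crs θ ε h x r ν) →
      (∀ x, k x = 0 → ∀ r, 0 < r → r ≤ ρ x → ∃ ν : V, ‖ν‖ = 1 ∧ Crs θ ε k x r ν) →
      ∀ T : Set V, (∀ y, ∃ g ∈ T, ‖g - y‖ ≤ κ * ρ y) → (∀ g ∈ T, 0 < h g ↔ 0 < k g) →
      ∃ Φ Ψ : V → V, Eqv Γ Φ Ψ ∧ ∀ x, (0 < k (Φ x) ↔ 0 < h x) ∧ (k (Φ x) < 0 ↔ h x < 0))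
    {K : Set V} (hK : IsCompact K) {ρ₀ : ℝ} (hρ₀ : 0 < ρ₀) :
    ∃ F : Finset V, ∀ h k : V → ℝ, DfnE Γ h → DfnE Γ k →
      (∀ x, h x ≤ 0 → ∃ γ ∈ Γ, act γ x ∈ K) → (∀ x, k x ≤ 0 → ∃ γ ∈ Γ, act γ x ∈ K) →
      (∀ x, h x = 0 → ∀ r, 0 < r → r ≤ ρ₀ → ∃ ν : V, ‖ν‖ = 1 ∧ Crs θ ε h x r ν) →
      (∀ x, k x = 0 → ∀ r, 0 < r → r ≤ ρ₀ → ∃ ν : V, ‖ν‖ = 1 ∧ Crs θ ε k x r ν) →
      (∀ g ∈ F, 0 < h g ↔ 0 < k g) →
      ∃ Φ Ψ : V → V, Eqv Γ Φ Ψ ∧ ∀ x, (0 < k (Φ x) ↔ 0 < h x) ∧ (k (Φ x) < 0 ↔ h x < 0) := by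
  have hκρ : 0 < κ * ρ₀ := by positivity
  obtain ⟨T₀, _, hT₀f, hT₀⟩ := hK.finite_cover_balls hκρ
  refine ⟨hT₀f.toFinset, fun h k hh hk hR hR' hC hC' hs => ?_⟩
  refine key h k (fun _ => ρ₀) hh hk ⟨contDiff_const, fun _ => hρ₀,
    fun x => by simpa using hε⟩ (fun _ _ _ => rfl) hC hC'
    ({g | ∃ γ ∈ Γ, act γ g ∈ T₀} ∪ {g | ∀ γ ∈ Γ, act γ g ∉ K}) (fun y => ?_) (fun g hg => ?_)
  · by_cases hy : ∀ γ ∈ Γ, act γ y ∉ K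
    · exact ⟨y, Or.inr hy, by rw [sub_self, norm_zero]; exact hκρ.le⟩
    · push Not at hy
      obtain ⟨γ, hγ, hyK⟩ := hy
      obtain ⟨g, hg, hgy⟩ := mem_iUnion₂.1 (hT₀ hyK)
      refine ⟨ain γ g, Or.inl ⟨γ, hγ, by rw [act_ain]; exact hg⟩, ?_⟩
      rw [mem_ball, dist_comm, dist_eq_norm] at hgy
      rw [← act_dist γ, act_ain]
      exact hgy.le
  · rcases hg with ⟨γ, hγ, hg⟩ | hg
    · rw [← hh.inv γ hγ, ← hk.inv γ hγ]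
      exact hs _ (hT₀f.mem_toFinset.2 hg)
    · have hpos : ∀ l : V → ℝ, (∀ x, l x ≤ 0 → ∃ γ ∈ Γ, act γ x ∈ K) → 0 < l g := fun l hl => by
        by_contra hn
        obtain ⟨γ, hγ, hm⟩ := hl g (not_lt.1 hn)
        exact hg γ hγ hm
      exact ⟨fun _ => hpos k hR', fun _ => hpos h hR⟩

/-- pigeonhole for sign patterns -/
theorem pigeon (F : Finset V) (h : Fin (2 ^ F.card + 1) → V → ℝ) :
    ∃ i j, i ≠ j ∧ ∀ g ∈ F, 0 < h i g ↔ 0 < h j g := by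
  classical
  obtain ⟨P, hP⟩ : ∃ P : Fin (2 ^ F.card + 1) → F.powerset, P = fun i =>
      ⟨F.filter fun g => 0 < h i g, Finset.mem_powerset.2 (Finset.filter_subset _ _)⟩ := ⟨_, rfl⟩
  obtain ⟨i, j, hij, hPij⟩ := Fintype.exists_ne_map_eq_of_card_lt P (by
    rw [Fintype.card_coe, Finset.card_powerset, Fintype.card_fin]
    exact Nat.lt_succ_self _)
  refine ⟨i, j, hij, fun g hg => ?_⟩
  have h1 : F.filter (fun g => 0 < h i g) = F.filter fun g => 0 < h j g := by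
    have := congrArg Subtype.val hPij
    rw [hP] at this
    exact this
  have h2 := Finset.ext_iff.1 h1 g
  simp only [Finset.mem_filter, hg, true_and] at h2
  exact h2

end Pool.Agent.K7.H28.EQ
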