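import Pool.Agent.K7.H28.EQ.A1

/-!
# A radial kernel
-/

set_option autoImplicit false
set_option linter.unusedSectionVars false

open Set Filter Topology Metric Function MeasureTheory
open scoped ContDiff NNReal

noncomputable section

namespace Pool.Agent.K7.H28.EQ

variable {V : Type} [NormedAddCommGroup V] [InnerProductSpace ℝ V] [FiniteDimensional ℝ V]
  [MeasurableSpace V] [BorelSpace V]

/-- the unnormalized kernel -/
def kf (s : V) : ℝ := expNegInvGlue (1 - ‖s‖ ^ 2)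

theorem kf_smooth : ContDiff ℝ ∞ (kf (V := V)) := by
  unfold kf
  exact expNegInvGlue.contDiff.comp (contDiff_const.sub (contDiff_norm_sq ℝ))

theorem kf_nonneg (s : V) : 0 ≤ kf s := expNegInvGlue.nonneg _

theorem kf_pos {s : V} (hs : ‖s‖ < 1) : 0 < kf s := by
  unfold kf
  refine expNegInvGlue.pos_of_pos ?_
  nlinarith [norm_nonneg s]

theorem kf_zero {s : V} (hs : 1 ≤ ‖s‖) : kf s = 0 := by
  unfold kf
  refine expNegInvGlue.zero_of_nonpos ?_
  nlinarith [norm_nonneg s]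

theorem kf_cpt : HasCompactSupport (kf (V := V)) := by
  refine HasCompactSupport.intro (isCompact_closedBall (0 : V) 1) fun x hx => ?_
  rw [mem_closedBall_zero_iff, not_le] at hx
  exact kf_zero hx.le

theorem kf_int : 0 < ∫ s : V, kf s := by
  refine Continuous.integral_pos_of_hasCompactSupport_nonneg_nonzero (x := 0)
    kf_smooth.continuous kf_cpt (fun s => kf_nonneg s) ?_
  exact (kf_pos (by rw [norm_zero]; exact one_pos)).ne'

/-- the kernel: smooth, radial, non-negative, of integral one, positive exactly on the open unit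
ball -/
def kr (s : V) : ℝ := kf s / ∫ s : V, kf s

theorem kr_smooth : ContDiff ℝ ∞ (kr (V := V)) := kf_smooth.div_const _

theorem kr_cont : Continuous (kr (V := V)) := kr_smooth.continuous

theorem kr_zero {s : V} (hs : 1 ≤ ‖s‖) : kr s = 0 := by
  unfold kr
  rw [kf_zero hs, zero_div]

theorem kr_nonneg (s : V) : 0 ≤ kr s := div_nonneg (kf_nonneg s) kf_int.le

theorem kr_pos {s : V} (hs : ‖s‖ < 1) : 0 < kr s := div_pos (kf_pos hs) kf_int

theorem kr_lt {s : V} (hs : kr s ≠ 0) : ‖s‖ < 1 := by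
  by_contra h
  exact hs (kr_zero (not_lt.1 h))

theorem kr_cpt : HasCompactSupport (kr (V := V)) := by
  refine HasCompactSupport.intro (isCompact_closedBall (0 : V) 1) fun x hx => ?_
  rw [mem_closedBall_zero_iff, not_le] at hx
  exact kr_zero hx.le

theorem kr_integrable : Integrable (kr (V := V)) :=
  kr_cont.integrable_of_hasCompactSupport kr_cpt

theorem kr_int : ∫ s : V, kr s = 1 := by
  unfold kr
  rw [integral_div]
  exact div_self kf_int.ne'

theorem kr_support : support (kr (V := V)) = ball (0 : V) 1 := by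
  ext s
  rw [mem_support, mem_ball_zero_iff]
  exact ⟨fun h => kr_lt h, fun h => (kr_pos h).ne'⟩

theorem kr_radial (A : V ≃ₗᵢ[ℝ] V) (s : V) : kr (A s) = kr s := by
  unfold kr kf
  rw [A.norm_map]

theorem kr_int_g {g : V → ℝ} (hg : Continuous g) : Integrable fun z => kr z * g z :=
  (kr_cont.mul hg).integrable_of_hasCompactSupport kr_cpt.mul_right

/-- the mollification as a function of the centre and the radius -/
def MJ (G : V → ℝ) (q : V × ℝ) : ℝ := ∫ s, kr s * G (q.1 + q.2 • s)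

theorem MJ_inv {G : V → ℝ} {γ : (V ≃ₗᵢ[ℝ] V) × V} (hG : ∀ x, G (act γ x) = G x) (x : V) (c : ℝ) :
    MJ G (act γ x, c) = MJ G (x, c) := by
  unfold MJ
  have h1 := (γ.1.measurePreserving).integral_comp γ.1.toHomeomorph.measurableEmbedding
    (fun s => kr s * G (act γ x + c • s))
  simp only at h1 ⊢
  rw [← h1]
  congr 1
  funext s
  rw [kr_radial]
  have h2 : act γ x + c • γ.1 s = act γ (x + c • s) := by
    rw [act_add, map_smul]
  rw [h2, hG]

/-- second order estimate for the kernel -/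
theorem kr_taylor : ∃ C : ℝ, 0 ≤ C ∧ ∀ z u : V,
    |kr (z + u) - kr z - fderiv ℝ (kr (V := V)) z u| ≤ C * ‖u‖ * ‖u‖ := by
  have h1 : ContDiff ℝ 1 (fderiv ℝ (kr (V := V))) :=
    ((kr_smooth (V := V)).fderiv_right (m := ∞) (by simp)).of_le (by simp)
  obtain ⟨C, hC⟩ := h1.lipschitzWith_of_hasCompactSupport
    ((kr_cpt (V := V)).fderiv (𝕜 := ℝ)) one_ne_zero
  refine ⟨C, C.2, fun z u => ?_⟩
  have h2 := Convex.norm_image_sub_le_of_norm_hasFDerivWithin_le' (𝕜 := ℝ) (f := kr (V := V))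
    (f' := fderiv ℝ (kr (V := V))) (φ := fderiv ℝ (kr (V := V)) z) (C := C * ‖u‖)
    (s := closedBall z ‖u‖)
    (x := z) (y := z + u)
    (fun x _ => (((kr_smooth (V := V)).differentiable (by simp)) x).hasFDerivAt.hasFDerivWithinAt)
    (fun x hx => by
      have h3 := hC.dist_le_mul x z
      rw [dist_eq_norm] at h3
      refine h3.trans ?_
      exact mul_le_mul_of_nonneg_left hx C.2) (convex_closedBall z ‖u‖)
    (mem_closedBall_self (norm_nonneg u)) (by
      rw [mem_closedBall, dist_eq_norm, add_sub_cancel_left])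
  rw [add_sub_cancel_left, Real.norm_eq_abs] at h2
  exact h2

theorem kr_shell : ∃ L : ℝ, 0 ≤ L ∧ ∀ (β : ℝ) (z : V), 0 < β → β ≤ 1 → 1 - β ≤ ‖z‖ →
    kr z ≤ L * β := by
  obtain ⟨L, hL⟩ := ((kr_smooth (V := V)).of_le
    (by simp : (1 : WithTop ℕ∞) ≤ ∞)).lipschitzWith_of_hasCompactSupport kr_cpt one_ne_zero
  have hL0 : (0 : ℝ) ≤ L := L.2
  have h0 := kr_nonneg (V := V) 0
  refine ⟨L + kr (0 : V), by positivity, fun β z hβ hβ1 hz => ?_⟩
  rcases le_or_gt 1 ‖z‖ with h1 | h1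
  · rw [kr_zero h1]
    positivity
  rcases eq_or_ne z 0 with rfl | hz0
  · rw [norm_zero] at hz
    have h2 : β = 1 := le_antisymm hβ1 (by linarith)
    rw [h2]
    linarith
  · have hzn : 0 < ‖z‖ := norm_pos_iff.2 hz0
    have h2 := hL.dist_le_mul z (‖z‖⁻¹ • z)
    have h3 : ‖‖z‖⁻¹ • z‖ = 1 := by
      rw [norm_smul, norm_inv, norm_norm, inv_mul_cancel₀ hzn.ne']
    rw [kr_zero h3.ge, Real.dist_eq, sub_zero, abs_of_nonneg (kr_nonneg z), dist_eq_norm] at h2
    have h4 : z - ‖z‖⁻¹ • z = (1 - ‖z‖⁻¹) • z := by rw [sub_smul, one_smul]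
    have h5 : ‖z - ‖z‖⁻¹ • z‖ ≤ β := by
      rw [h4, norm_smul, Real.norm_eq_abs, ← abs_of_pos hzn, ← abs_mul, sub_mul, one_mul,
        abs_of_pos hzn, inv_mul_cancel₀ hzn.ne', abs_sub_comm, abs_of_nonneg (by linarith)]
      linarith
    refine h2.trans ?_
    nlinarith

theorem kr_low {β : ℝ} (hβ : 0 < β) : ∃ η : ℝ, 0 < η ∧ ∀ z : V, ‖z‖ ≤ 1 - β → η ≤ kr z := by
  rcases le_or_gt (1 - β) 0 with h | h
  · refine ⟨kr (0 : V), kr_pos (by rw [norm_zero]; exact one_pos), fun z hz => ?_⟩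
    have : z = 0 := norm_le_zero_iff.1 (hz.trans h)
    rw [this]
  · obtain ⟨z₀, hz₀, hmin⟩ := (isCompact_closedBall (0 : V) (1 - β)).exists_isMinOn
      ⟨0, mem_closedBall_self h.le⟩ (kr_cont (V := V)).continuousOn
    refine ⟨kr z₀, ?_, fun z hz => hmin (mem_closedBall_zero_iff.2 hz)⟩
    refine kr_pos ?_
    rw [mem_closedBall_zero_iff] at hz₀
    linarith

/-- the scaled kernels form a Lipschitz family -/
theorem kr_scale : ∃ C : ℝ, 0 ≤ C ∧ ∀ (ρ : ℝ) (w : V), |ρ - 1| ≤ 1 / 2 → ‖w‖ ≤ 2 →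
    |(ρ ^ Module.finrank ℝ V)⁻¹ * kr (ρ⁻¹ • w) - kr w| ≤ C * |ρ - 1| := by
  obtain ⟨U, hU⟩ : ∃ U : Set (ℝ × V), U = {q | 0 < q.1} := ⟨_, rfl⟩
  have hUo : IsOpen U := by rw [hU]; exact isOpen_lt continuous_const continuous_fst
  obtain ⟨f, hf⟩ : ∃ f : ℝ × V → ℝ, f = fun q => (q.1 ^ Module.finrank ℝ V)⁻¹ * kr (q.1⁻¹ • q.2) :=
    ⟨_, rfl⟩
  have hfs : ContDiffOn ℝ ∞ f U := by
    rw [hf]
    have e0 : ∀ q ∈ U, (q : ℝ × V).1 ≠ 0 := by
      intro q hq
      rw [hU] at hq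
      exact (ne_of_gt hq)
    have e1 : ContDiffOn ℝ ∞ (fun q : ℝ × V => q.1) U := contDiff_fst.contDiffOn
    apply ContDiffOn.mul
    · exact (e1.pow _).inv fun q hq => pow_ne_zero _ (e0 q hq)
    · apply kr_smooth.comp_contDiffOn
      exact (e1.inv e0).smul contDiff_snd.contDiffOn
  obtain ⟨K, hK⟩ : ∃ K : Set (ℝ × V), K = closedBall (1 : ℝ) (1 / 2) ×ˢ closedBall (0 : V) 2 :=
    ⟨_, rfl⟩
  have hKU : K ⊆ U := by
    rintro ⟨ρ, w⟩ hq
    rw [hK] at hq
    rw [hU]
    have h1 := hq.1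
    simp only [mem_closedBall, Real.dist_eq] at h1
    have h2 := abs_le.1 h1
    change 0 < ρ
    linarith [h2.1]
  have hKc : IsCompact K := by
    rw [hK]
    exact (isCompact_closedBall _ _).prod (isCompact_closedBall _ _)
  have hKv : Convex ℝ K := by
    rw [hK]
    exact (convex_closedBall _ _).prod (convex_closedBall _ _)
  have hd : ∀ q ∈ U, DifferentiableAt ℝ f q := fun q hq =>
    (hfs.contDiffAt (hUo.mem_nhds hq)).differentiableAt (by simp)
  have hcont : ContinuousOn (fderiv ℝ f) U :=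
    hfs.continuousOn_fderiv_of_isOpen hUo (by simp)
  obtain ⟨C, hC⟩ := hKc.exists_bound_of_continuousOn (f := fderiv ℝ f) (hcont.mono hKU)
  have hC0 : 0 ≤ C := by
    refine (norm_nonneg _).trans (hC (1, 0) ?_)
    rw [hK]
    exact ⟨by simp, by simp⟩
  refine ⟨C, hC0, fun ρ w hρ hw => ?_⟩
  have h1 : ((ρ, w) : ℝ × V) ∈ K := by
    rw [hK]
    exact ⟨by rw [mem_closedBall, Real.dist_eq]; exact hρ, mem_closedBall_zero_iff.2 hw⟩
  have h2 : ((1, w) : ℝ × V) ∈ K := by
    rw [hK]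
    exact ⟨by rw [mem_closedBall, dist_self]; norm_num, mem_closedBall_zero_iff.2 hw⟩
  have h3 := hKv.norm_image_sub_le_of_norm_fderiv_le (f := f) (C := C)
    (fun q hq => hd q (hKU hq)) hC h2 h1
  rw [hf, Real.norm_eq_abs] at h3
  simp only [one_pow, inv_one, one_smul, one_mul] at h3
  refine h3.trans (mul_le_mul_of_nonneg_left ?_ hC0)
  have h4 : ((ρ, w) : ℝ × V) - (1, w) = (ρ - 1, 0) := by
    ext1
    · rfl
    · exact sub_self w
  rw [h4, Prod.norm_def, Real.norm_eq_abs]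
  simp

theorem scale_err : ∃ C : ℝ, 0 ≤ C ∧ ∀ (g : V → ℝ) (ν : V) (a ρ : ℝ), Continuous g →
    (∀ z, |g z| ≤ 1) → |ρ - 1| ≤ 1 / 2 →
    |(∫ s, kr s * g (a • ν + ρ • s)) - ∫ s, kr s * g (s + a • ν)| ≤ C * |ρ - 1| := by
  obtain ⟨C, hC0, hC⟩ := kr_scale (V := V)
  refine ⟨C * volume.real (closedBall (0 : V) 2), by positivity, fun g ν a ρ hg hg1 hρ => ?_⟩
  have hρ' := abs_le.1 hρ
  have hρ0 : 0 < ρ := by linarith [hρ'.1]
  obtain ⟨f, hf⟩ : ∃ f : V → ℝ, f = fun w => kr (ρ⁻¹ • w) * g (w + a • ν) := ⟨_, rfl⟩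
  have h1 : (∫ s, kr s * g (a • ν + ρ • s)) = (ρ ^ Module.finrank ℝ V)⁻¹ * ∫ w, f w := by
    have h2 := Measure.integral_comp_smul (volume : Measure V) f ρ
    rw [abs_of_pos (by positivity), smul_eq_mul] at h2
    rw [← h2, hf]
    congr 1
    funext s
    simp only
    rw [smul_smul, inv_mul_cancel₀ hρ0.ne', one_smul, add_comm]
  have hfc : Continuous f := by
    rw [hf]
    exact (kr_cont.comp (by fun_prop)).mul (hg.comp (by fun_prop))
  have hfz : ∀ w ∉ closedBall (0 : V) 2, f w = 0 := by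
    intro w hw
    rw [mem_closedBall_zero_iff, not_le] at hw
    rw [hf]
    simp only
    rw [kr_zero, zero_mul]
    rw [norm_smul, norm_inv, Real.norm_of_nonneg hρ0.le, inv_mul_eq_div, le_div_iff₀ hρ0]
    linarith [hρ'.2]
  have hfi : Integrable f := hfc.integrable_of_hasCompactSupport
    (HasCompactSupport.intro (isCompact_closedBall (0 : V) 2) hfz)
  have i2 : Integrable fun s => kr s * g (s + a • ν) :=
    kr_int_g (hg.comp (by fun_prop : Continuous fun s : V => s + a • ν))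
  rw [h1, ← integral_const_mul, ← integral_sub (hfi.const_mul _) i2]
  have hz : ∀ w ∉ closedBall (0 : V) 2,
      (ρ ^ Module.finrank ℝ V)⁻¹ * f w - kr w * g (w + a • ν) = 0 := by
    intro w hw
    rw [hfz w hw]
    rw [mem_closedBall_zero_iff, not_le] at hw
    rw [kr_zero (by linarith)]
    ring
  rw [← setIntegral_eq_integral_of_forall_compl_eq_zero hz]
  have h4 := norm_setIntegral_le_of_norm_le_const (μ := volume) (s := closedBall (0 : V) 2)
    (f := fun w => (ρ ^ Module.finrank ℝ V)⁻¹ * f w - kr w * g (w + a • ν)) (C := C * |ρ - 1|)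
    (isCompact_closedBall _ _).measure_lt_top (by
      intro w hw
      rw [mem_closedBall_zero_iff] at hw
      have e : (ρ ^ Module.finrank ℝ V)⁻¹ * f w - kr w * g (w + a • ν) =
          ((ρ ^ Module.finrank ℝ V)⁻¹ * kr (ρ⁻¹ • w) - kr w) * g (w + a • ν) := by
        rw [hf]
        ring
      rw [e, Real.norm_eq_abs, abs_mul]
      calc _ ≤ C * |ρ - 1| * 1 := mul_le_mul (hC ρ w hρ hw) (hg1 _) (abs_nonneg _) (by positivity)
        _ = C * |ρ - 1| := mul_one _)
  rw [Real.norm_eq_abs] at h4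
  refine h4.trans (le_of_eq ?_)
  ring

end Pool.Agent.K7.H28.EQ
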