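import Pool.Agent.K7.H28.EQ.A2
import Pool.Agent.K7.H28.GS.L5

/-!
# Increments of the mollification of a coarse graph
-/

set_option autoImplicit false
set_option linter.unusedSectionVars false

open Set Filter Topology Metric Function MeasureTheory
open scoped ContDiff NNReal Convolution

noncomputable section

namespace Pool.Agent.K7.H28.EQ

open Pool.Agent.K7.H28.GS (Prf exists_prf const_sign deriv_ge)

variable {V : Type} [NormedAddCommGroup V] [InnerProductSpace ℝ V] [FiniteDimensional ℝ V]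
  [MeasurableSpace V] [BorelSpace V]

/-- the increment of the mollification -/
def II (g : V → ℝ) (ν : V) (a : ℝ) : ℝ := ∫ z, kr z * (g (z + a • ν) - g z)

theorem II_eq {g : V → ℝ} (hg : Continuous g) (ν : V) (a : ℝ) :
    II g ν a = ∫ z, (kr (z - a • ν) - kr z) * g z := by
  unfold II
  have i1 : Integrable fun z => kr z * g (z + a • ν) := kr_int_g (hg.comp (by fun_prop))
  have i2 : Integrable fun z => kr z * g z := kr_int_g hg
  have i3 : Integrable fun z => kr (z - a • ν) * g z := by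
    have h1 := i1.comp_sub_right (a • ν)
    simpa using h1
  have e1 : ∀ z, kr z * (g (z + a • ν) - g z) = kr z * g (z + a • ν) - kr z * g z := by
    intro z
    ring
  have e2 : ∀ z, (kr (z - a • ν) - kr z) * g z = kr (z - a • ν) * g z - kr z * g z := by
    intro z
    ring
  simp only [e1, e2]
  rw [integral_sub i1 i2, integral_sub i3 i2]
  congr 1
  have h2 := integral_sub_right_eq_self (μ := volume) (fun z => kr z * g (z + a • ν)) (a • ν)
  rw [← h2]
  simp

theorem step_compare : ∃ C : ℝ, 0 ≤ C ∧ ∀ (g : V → ℝ) (ν : V) (a δ : ℝ),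
    Continuous g → (∀ z, |g z| ≤ 1) → ‖ν‖ = 1 → 0 < a → a ≤ δ → δ ≤ 1 →
    |II g ν a / a - II g ν δ / δ| ≤ C * δ := by
  obtain ⟨C, hC0, hC⟩ := kr_taylor (V := V)
  refine ⟨2 * C * volume.real (closedBall (0 : V) 2), by positivity, ?_⟩
  intro g ν a δ hg hg1 hν ha haδ hδ1
  have hδ : 0 < δ := ha.trans_le haδ
  have i0 : ∀ c : ℝ, Integrable fun z => (kr (z - c • ν) - kr z) * g z := by
    intro c
    have i1 : Integrable fun z => kr z * g (z + c • ν) := kr_int_g (hg.comp (by fun_prop))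
    have i3 : Integrable fun z => kr (z - c • ν) * g z := by
      have h1 := i1.comp_sub_right (c • ν)
      simpa using h1
    refine (i3.sub (kr_int_g hg)).congr (Eventually.of_forall fun z => ?_)
    simp only [Pi.sub_apply]
    ring
  obtain ⟨w, hw⟩ : ∃ w : V → ℝ, w = fun z =>
      (kr (z - a • ν) - kr z) / a - (kr (z - δ • ν) - kr z) / δ := ⟨_, rfl⟩
  have h1 : II g ν a / a - II g ν δ / δ = ∫ z, w z * g z := by
    rw [II_eq hg, II_eq hg, ← integral_div, ← integral_div, ← integral_sub ((i0 a).div_const a)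
      ((i0 δ).div_const δ), hw]
    congr 1
    funext z
    ring
  have h2 : ∀ z, |w z| ≤ 2 * C * δ := by
    intro z
    have hT : ∀ c : ℝ, 0 < c → c ≤ δ →
        |(kr (z - c • ν) - kr z) / c + fderiv ℝ (kr) z ν| ≤ C * δ := by
      intro c hc hcδ
      have h3 := hC z (-(c • ν))
      rw [norm_neg, norm_smul, hν, mul_one, Real.norm_of_nonneg hc.le, map_neg, map_smul,
        smul_eq_mul, sub_neg_eq_add, ← sub_eq_add_neg] at h3
      have h4 : (kr (z - c • ν) - kr z) / c + fderiv ℝ (kr) z ν =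
          (kr (z - c • ν) - kr z + c * fderiv ℝ (kr) z ν) / c := by
        field_simp
      rw [h4, abs_div, abs_of_pos hc, div_le_iff₀ hc]
      refine h3.trans ?_
      nlinarith [mul_nonneg hC0 hc.le]
    have h5 := abs_le.1 (hT a ha haδ)
    have h6 := abs_le.1 (hT δ hδ le_rfl)
    rw [hw]
    refine abs_le.2 ⟨?_, ?_⟩ <;> simp only <;> linarith [h5.1, h5.2, h6.1, h6.2]
  have h3 : ∀ z ∉ closedBall (0 : V) 2, w z * g z = 0 := by
    intro z hz
    rw [mem_closedBall_zero_iff, not_le] at hz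
    have h4 : kr z = 0 := kr_zero (by linarith)
    have h5 : ∀ c : ℝ, 0 < c → c ≤ 1 → kr (z - c • ν) = 0 := by
      intro c hc hc1
      apply kr_zero
      have h6 := norm_sub_norm_le z (c • ν)
      rw [norm_smul, hν, mul_one, Real.norm_of_nonneg hc.le] at h6
      linarith
    rw [hw]
    simp only
    rw [h4, h5 a ha (haδ.trans hδ1), h5 δ hδ hδ1]
    ring
  rw [h1, ← setIntegral_eq_integral_of_forall_compl_eq_zero h3]
  have h4 := norm_setIntegral_le_of_norm_le_const (μ := volume) (s := closedBall (0 : V) 2)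
    (f := fun z => w z * g z) (C := 2 * C * δ) (isCompact_closedBall _ _).measure_lt_top (by
      intro z _
      rw [Real.norm_eq_abs, abs_mul]
      calc |w z| * |g z| ≤ 2 * C * δ * 1 := mul_le_mul (h2 z) (hg1 z) (abs_nonneg _) (by positivity)
        _ = 2 * C * δ := mul_one _)
  rw [Real.norm_eq_abs] at h4
  refine h4.trans (le_of_eq ?_)
  ring

/-- the cone property at unit scale -/
def Cone (g : V → ℝ) (ν : V) (θ δ : ℝ) : Prop :=
  ∀ (w w' : V) (τ : ℝ), ‖w‖ ≤ 4 → ‖w'‖ ≤ 4 → δ ≤ τ → ‖w' - w - τ • ν‖ ≤ θ * τ →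
    g w = -1 ∨ g w' = 1

theorem cone_mono {g : V → ℝ} {ν : V} {θ δ : ℝ} (hg : ∀ z, |g z| ≤ 1) (hθ : 0 ≤ θ)
    (hδ : 0 ≤ δ) (hδ1 : δ ≤ 1) (hν : ‖ν‖ = 1)
    (h : Cone g ν θ δ) {z : V} (hz : ‖z‖ ≤ 3) : g z ≤ g (z + δ • ν) := by
  have h1 := h z (z + δ • ν) δ (by linarith) (by
    refine (norm_add_le _ _).trans ?_
    rw [norm_smul, hν, mul_one, Real.norm_of_nonneg hδ]
    linarith) le_rfl (by
    rw [add_sub_cancel_left, sub_self, norm_zero]
    positivity)
  rcases h1 with h1 | h1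
  · rw [h1]
    exact (abs_le.1 (hg _)).1
  · rw [h1]
    exact (abs_le.1 (hg _)).2

theorem II_nonneg {g : V → ℝ} {ν : V} {θ δ : ℝ} (hg : ∀ z, |g z| ≤ 1) (hθ : 0 ≤ θ)
    (hδ : 0 ≤ δ) (hδ1 : δ ≤ 1) (hν : ‖ν‖ = 1) (h : Cone g ν θ δ) : 0 ≤ II g ν δ := by
  unfold II
  refine integral_nonneg fun z => ?_
  by_cases hz : kr z = 0
  · simp [hz]
  · refine mul_nonneg (kr_nonneg z) (sub_nonneg.2 ?_)
    exact cone_mono hg hθ hδ hδ1 hν h (by linarith [kr_lt hz])

theorem tube (θ β : ℝ) (hθ : 0 < θ) (hθ1 : θ ≤ 1) (hβ : 0 < β) (hβ1 : β ≤ 1) :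
    ∃ c₀ : ℝ, 0 < c₀ ∧ ∀ (k : ℕ) (g : V → ℝ) (ν w₀ : V), 0 < k → Continuous g →
      (∀ z, |g z| ≤ 1) → ‖ν‖ = 1 → Cone g ν θ (β / 4 / k) → ‖w₀‖ ≤ 1 - β → |g w₀| < 1 →
      c₀ * (β / 4 / k) ≤ II g ν (β / 4 / k) := by
  obtain ⟨η, hη, hηk⟩ := kr_low (V := V) (β := β / 2) (by linarith)
  obtain ⟨b, hb⟩ : ∃ b : ℝ, b = β / 4 := ⟨_, rfl⟩
  have hb0 : 0 < b := by rw [hb]; linarith
  have hb1 : b ≤ 1 / 4 := by rw [hb]; linarith
  obtain ⟨B, hB⟩ : ∃ B : Set (V), B = ball 0 (θ * b) := ⟨_, rfl⟩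
  have hθb : 0 < θ * b := by positivity
  have hθb1 : θ * b ≤ b := by nlinarith
  have hBv : 0 < volume.real B := by
    rw [hB, measureReal_def, ENNReal.toReal_pos_iff]
    exact ⟨measure_ball_pos _ _ hθb, measure_ball_lt_top⟩
  refine ⟨η * volume.real B / b, by positivity, ?_⟩
  intro k g ν w₀ hk hg hg1 hν hcone hw₀ hgw
  rw [← hb] at hcone ⊢
  have hkr : (0 : ℝ) < k := by exact_mod_cast hk
  have hk1 : (1 : ℝ) ≤ k := by exact_mod_cast hk
  obtain ⟨δ, hδd⟩ : ∃ δ : ℝ, δ = b / k := ⟨_, rfl⟩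
  rw [← hδd] at hcone ⊢
  have hδ : 0 < δ := by rw [hδd]; positivity
  have hkδ : k * δ = b := by rw [hδd]; field_simp
  have hδb : δ ≤ b := by
    rw [← hkδ]
    nlinarith
  obtain ⟨a, had⟩ : ∃ a : ℕ → V, a = fun j : ℕ => w₀ + ((j : ℝ) * δ - b) • ν := ⟨_, rfl⟩
  obtain ⟨A, hAd⟩ : ∃ A : ℕ → ℝ, A = fun j => ∫ w in B, g (a j + w) := ⟨_, rfl⟩
  have hastep : ∀ j, a (j + 1) = a j + δ • ν := by
    intro j
    rw [had]
    simp only
    rw [add_assoc, ← add_smul]
    congr 2
    push_cast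
    ring
  have han : ∀ j, j ≤ 2 * k → ‖a j‖ ≤ 1 - β + b := by
    intro j hj
    have hj' : (j : ℝ) ≤ 2 * k := by exact_mod_cast hj
    have hj0 : (0 : ℝ) ≤ j := Nat.cast_nonneg j
    rw [had]
    refine (norm_add_le _ _).trans ?_
    rw [norm_smul, hν, mul_one, Real.norm_eq_abs]
    have : |(j : ℝ) * δ - b| ≤ b := by
      refine abs_le.2 ⟨?_, ?_⟩
      · have := mul_nonneg hj0 hδ.le
        linarith
      · have : (j : ℝ) * δ ≤ 2 * k * δ := mul_le_mul_of_nonneg_right hj' hδ.le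
        have h2 : 2 * (k : ℝ) * δ = 2 * b := by rw [← hkδ]; ring
        linarith
    linarith
  have hint : ∀ c : V, Integrable (fun w => g (c + w)) (volume.restrict B) := by
    intro c
    have hf : Continuous fun w => g (c + w) := hg.comp (by fun_prop)
    have h1 : IntegrableOn (fun w => g (c + w)) (closedBall (0 : V) (θ * b)) :=
      hf.continuousOn.integrableOn_compact (isCompact_closedBall _ _)
    refine h1.mono_set ?_
    rw [hB]
    exact ball_subset_closedBall
  have hmB : MeasurableSet B := by rw [hB]; exact measurableSet_ball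
  -- one step of the sum
  have hstep : ∀ j ∈ Finset.range (2 * k), A (j + 1) - A j ≤ II g ν δ / η := by
    intro j hj
    have hj2 : j ≤ 2 * k := (Finset.mem_range.1 hj).le
    rw [hAd]
    simp only
    rw [← integral_sub (hint _) (hint _), ← integral_indicator hmB]
    have hII : II g ν δ / η = ∫ w, kr (a j + w) * (g (a j + w + δ • ν) - g (a j + w)) / η := by
      rw [integral_div]
      congr 1
      exact (integral_add_left_eq_self (μ := volume)
        (fun z => kr z * (g (z + δ • ν) - g z)) (a j)).symm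
    rw [hII]
    have i1 : Integrable fun z => kr z * (g (z + δ • ν) - g z) :=
      kr_int_g ((hg.comp (by fun_prop)).sub hg)
    have i2 := (i1.comp_add_left (a j)).div_const η
    refine integral_mono ?_ i2 fun w => ?_
    · exact (show IntegrableOn (fun w => g (a (j + 1) + w) - g (a j + w)) B volume from
        (hint (a (j + 1))).sub (hint (a j))).integrable_indicator hmB
    · by_cases hw : w ∈ B
      · rw [indicator_of_mem hw, hastep]
        have hwn : ‖w‖ < θ * b := by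
          rw [hB, mem_ball_zero_iff] at hw
          exact hw
        have h1 : ‖a j + w‖ ≤ 1 - β / 2 := by
          refine (norm_add_le _ _).trans ?_
          have := han j hj2
          rw [hb] at this hwn hθb1
          linarith
        have h2 := hηk _ h1
        have h3 : g (a j + w) ≤ g (a j + w + δ • ν) :=
          cone_mono hg1 hθ.le hδ.le (by linarith) hν hcone (by linarith)
        have h4 : a j + δ • ν + w = a j + w + δ • ν := by abel
        rw [h4]
        change g (a j + w + δ • ν) - g (a j + w) ≤ kr (a j + w) * (g (a j + w + δ • ν) - g (a j + w)) / η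
        rw [le_div_iff₀ hη, mul_comm]
        exact mul_le_mul_of_nonneg_right h2 (sub_nonneg.2 h3)
      · rw [indicator_of_notMem hw]
        change 0 ≤ kr (a j + w) * (g (a j + w + δ • ν) - g (a j + w)) / η
        refine div_nonneg ?_ hη.le
        by_cases h0 : kr (a j + w) = 0
        · rw [h0, zero_mul]
        · exact mul_nonneg (kr_nonneg _) (sub_nonneg.2
            (cone_mono hg1 hθ.le hδ.le (by linarith) hν hcone (by linarith [kr_lt h0])))
  have hsum := Finset.sum_le_sum hstep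
  rw [Finset.sum_range_sub, Finset.sum_const, Finset.card_range, nsmul_eq_mul] at hsum
  have htop : A (2 * k) = volume.real B := by
    rw [hAd]
    simp only
    rw [setIntegral_congr_fun (g := fun _ => (1 : ℝ)) hmB, setIntegral_const]
    · simp
    intro w hw
    have hwn : ‖w‖ < θ * b := by
      rw [hB, mem_ball_zero_iff] at hw
      exact hw
    have h1 : a (2 * k) = w₀ + b • ν := by
      rw [had]
      simp only
      congr 2
      push_cast
      rw [← hkδ]
      ring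
    simp only
    rw [h1]
    have h2 := hcone w₀ (w₀ + b • ν + w) b (by linarith) (by
      refine (norm_add_le _ _).trans ?_
      have h3 := norm_add_le w₀ (b • ν)
      rw [norm_smul, hν, mul_one, Real.norm_of_nonneg hb0.le] at h3
      linarith) hδb (by
      have h3 : w₀ + b • ν + w - w₀ - b • ν = w := by abel
      rw [h3]
      exact hwn.le)
    rcases h2 with h2 | h2
    · rw [h2, abs_neg, abs_one] at hgw
      exact absurd hgw (lt_irrefl _)
    · exact h2
  have hbot : A 0 = -volume.real B := by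
    rw [hAd]
    simp only
    rw [setIntegral_congr_fun (g := fun _ => (-1 : ℝ)) hmB, setIntegral_const]
    · simp
    intro w hw
    have hwn : ‖w‖ < θ * b := by
      rw [hB, mem_ball_zero_iff] at hw
      exact hw
    have h1 : a 0 = w₀ - b • ν := by
      rw [had]
      simp only
      rw [Nat.cast_zero, zero_mul, zero_sub, neg_smul, sub_eq_add_neg]
    simp only
    rw [h1]
    have h2 := hcone (w₀ - b • ν + w) w₀ b (by
      refine (norm_add_le _ _).trans ?_
      have h3 := norm_sub_le w₀ (b • ν)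
      rw [norm_smul, hν, mul_one, Real.norm_of_nonneg hb0.le] at h3
      linarith) (by linarith) hδb (by
      have h3 : w₀ - (w₀ - b • ν + w) - b • ν = -w := by abel
      rw [h3, norm_neg]
      exact hwn.le)
    rcases h2 with h2 | h2
    · exact h2
    · rw [h2, abs_one] at hgw
      exact absurd hgw (lt_irrefl _)
  rw [htop, hbot] at hsum
  push_cast at hsum
  have h5 : volume.real B ≤ k * (II g ν δ / η) := by linarith
  have h6 : η * volume.real B / b * δ = η * volume.real B / k := by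
    rw [hδd]
    field_simp
  rw [h6, div_le_iff₀ hkr]
  have h7 : (k : ℝ) * (II g ν δ / η) * η = II g ν δ * k := by field_simp
  nlinarith [mul_le_mul_of_nonneg_right h5 hη.le]

/-- the general estimate -/
theorem gl (θ β : ℝ) (hθ : 0 < θ) (hθ1 : θ ≤ 1) (hβ : 0 < β) (hβ1 : β ≤ 1) :
    ∃ c₀ δ₀ : ℝ, 0 < c₀ ∧ 0 < δ₀ ∧ δ₀ ≤ 1 / 4 ∧ ∀ (g : V → ℝ) (ν : V), Continuous g →
      (∀ z, |g z| ≤ 1) → ‖ν‖ = 1 → Cone g ν θ δ₀ → ∀ a ρ : ℝ, 0 < a → a ≤ δ₀ →
      |ρ - 1| ≤ δ₀ * a →
      -(c₀ / 6) * a ≤ (∫ s, kr s * g (a • ν + ρ • s)) - ∫ s, kr s * g s ∧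
      ((∃ w₀, ‖w₀‖ ≤ 1 - β ∧ |g w₀| < 1) →
        2 / 3 * c₀ * a ≤ (∫ s, kr s * g (a • ν + ρ • s)) - ∫ s, kr s * g s) := by
  obtain ⟨c₀, hc₀, htube⟩ := tube (V := V) θ β hθ hθ1 hβ hβ1
  obtain ⟨C₁, hC₁, hstep⟩ := step_compare (V := V)
  obtain ⟨C₃, hC₃, hscale⟩ := scale_err (V := V)
  obtain ⟨k, hk⟩ := exists_nat_gt (12 * (C₁ + C₃ + 1) / c₀)
  have hq0 : 0 < 12 * (C₁ + C₃ + 1) / c₀ := by positivity
  have hkr : (0 : ℝ) < k := hq0.trans hk
  have hk0 : 0 < k := by exact_mod_cast hkr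
  have hk1 : (1 : ℝ) ≤ k := by exact_mod_cast hk0
  obtain ⟨δ, hδd⟩ : ∃ δ : ℝ, δ = β / 4 / k := ⟨_, rfl⟩
  have hδ0 : 0 < δ := by rw [hδd]; positivity
  have hδk : δ * k ≤ 1 / 4 := by
    rw [hδd]
    field_simp
    linarith
  have hδ1 : δ ≤ 1 / 4 := by nlinarith
  have hCδ : (C₁ + C₃) * δ ≤ c₀ / 12 / 4 := by
    rw [div_lt_iff₀ hc₀] at hk
    have h1 : 12 * (C₁ + C₃ + 1) * δ ≤ c₀ * (δ * k) := by
      have := mul_le_mul_of_nonneg_right hk.le hδ0.le
      nlinarith
    nlinarith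
  have hC1δ : C₁ * δ ≤ c₀ / 12 := by nlinarith [mul_nonneg hC₃ hδ0.le]
  have hC3δ : C₃ * δ ≤ c₀ / 12 := by nlinarith [mul_nonneg hC₁ hδ0.le]
  refine ⟨c₀, δ, hc₀, hδ0, hδ1, ?_⟩
  intro g ν hg hg1 hν hcone a ρ ha haδ hρ
  have hρ' : |ρ - 1| ≤ 1 / 2 := by nlinarith
  have h1 := (abs_le.1 (hscale g ν a ρ hg hg1 hρ')).1
  have h2 := (abs_le.1 (hstep g ν a δ hg hg1 hν ha haδ (by linarith))).1
  have h3 : C₃ * |ρ - 1| ≤ c₀ / 12 * a := by
    calc C₃ * |ρ - 1| ≤ C₃ * (δ * a) := mul_le_mul_of_nonneg_left hρ hC₃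
      _ = C₃ * δ * a := by ring
      _ ≤ c₀ / 12 * a := mul_le_mul_of_nonneg_right hC3δ ha.le
  have h4 : II g ν a = (∫ s, kr s * g (s + a • ν)) - ∫ s, kr s * g s := by
    have i1 : Integrable fun z => kr z * g (z + a • ν) :=
      kr_int_g (hg.comp (by fun_prop : Continuous fun z : V => z + a • ν))
    unfold II
    rw [← integral_sub i1 (kr_int_g hg)]
    congr 1
    funext z
    ring
  have h5 : ∀ c : ℝ, c * δ ≤ II g ν δ → (c - c₀ / 12) * a ≤ II g ν a := by
    intro c hc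
    have h6 : c ≤ II g ν δ / δ := by rwa [le_div_iff₀ hδ0]
    have h7 : c - c₀ / 12 ≤ II g ν a / a := by linarith
    rwa [le_div_iff₀ ha] at h7
  refine ⟨?_, fun hw => ?_⟩
  · have h6 := h5 0 (by
      rw [zero_mul]
      exact II_nonneg hg1 hθ.le hδ0.le (by linarith) hν hcone)
    rw [h4] at h6
    nlinarith
  · obtain ⟨w₀, hw1, hw2⟩ := hw
    have h7 := htube k g ν w₀ hk0 hg hg1 hν (by rw [← hδd]; exact hcone) hw1 hw2
    rw [← hδd] at h7
    have h6 := h5 c₀ h7
    rw [h4] at h6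
    nlinarith [mul_pos hc₀ ha]

theorem sign_half : ∃ β : ℝ, 0 < β ∧ β ≤ 1 / 2 ∧ ∀ g : V → ℝ, Continuous g →
    (∀ z, |g z| ≤ 1) → (∀ z, ‖z‖ ≤ 1 - β → g z = 1) → 1 / 2 ≤ ∫ s, kr s * g s := by
  obtain ⟨L, hL0, hL⟩ := kr_shell (V := V)
  obtain ⟨v, hv⟩ : ∃ v : ℝ, v = volume.real (closedBall (0 : V) 1) := ⟨_, rfl⟩
  have hv0 : 0 ≤ v := by rw [hv]; positivity
  obtain ⟨β, hβd⟩ : ∃ β : ℝ, β = 1 / (4 * (L * v + 1)) := ⟨_, rfl⟩
  have hLv : 0 ≤ L * v := mul_nonneg hL0 hv0
  have hβ0 : 0 < β := by rw [hβd]; positivity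
  have hβ1 : β ≤ 1 / 4 := by
    rw [hβd]
    exact one_div_le_one_div_of_le (by norm_num) (by linarith)
  have hβ2 : L * v * β ≤ 1 / 4 := by
    rw [hβd, mul_one_div, div_le_div_iff₀ (by positivity) (by norm_num)]
    linarith
  refine ⟨β, hβ0, by linarith, fun g hg hg1 h => ?_⟩
  have i1 : Integrable fun s => kr s * g s := kr_int_g hg
  have i2 : Integrable fun s => kr s * (1 - g s) := kr_int_g (continuous_const.sub hg)
  have h1 : (∫ s, kr s * g s) = 1 - ∫ s, kr s * (1 - g s) := by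
    have h2 : (∫ s, kr s * (1 - g s)) = (∫ s : V, kr s) - ∫ s, kr s * g s := by
      rw [← integral_sub kr_integrable i1]
      congr 1
      funext s
      ring
    rw [h2, kr_int]
    ring
  have h3 : ∀ z ∉ closedBall (0 : V) 1, kr z * (1 - g z) = 0 := by
    intro z hz
    rw [mem_closedBall_zero_iff, not_le] at hz
    rw [kr_zero hz.le, zero_mul]
  have h4 : ∫ s, kr s * (1 - g s) ≤ 1 / 2 := by
    rw [← setIntegral_eq_integral_of_forall_compl_eq_zero h3]
    have h5 := norm_setIntegral_le_of_norm_le_const (μ := volume) (s := closedBall (0 : V) 1)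
      (f := fun z => kr z * (1 - g z)) (C := 2 * (L * β))
      (isCompact_closedBall _ _).measure_lt_top (by
        intro z _
        rw [Real.norm_eq_abs, abs_mul, abs_of_nonneg (kr_nonneg z)]
        rcases le_or_gt ‖z‖ (1 - β) with hz | hz
        · rw [h z hz, sub_self, abs_zero, mul_zero]
          positivity
        · have h6 := hL β z hβ0 (by linarith) hz.le
          have h7 : |1 - g z| ≤ 2 := by
            have := abs_le.1 (hg1 z)
            exact abs_le.2 ⟨by linarith [this.2], by linarith [this.1]⟩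
          calc kr z * |1 - g z| ≤ L * β * 2 :=
                mul_le_mul h6 h7 (abs_nonneg _) (by positivity)
            _ = 2 * (L * β) := by ring)
    refine (le_abs_self _).trans (h5.trans ?_)
    rw [← hv]
    nlinarith
  linarith

end Pool.Agent.K7.H28.EQ
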