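import Pool.Agent.K7.H28.EQ.A3

/-!
# Smoothness and derivatives of the mollification, small scales
-/

set_option autoImplicit false
set_option linter.unusedSectionVars false

open Set Filter Topology Metric Function MeasureTheory
open scoped ContDiff NNReal Convolution

noncomputable section

namespace Pool.Agent.K7.H28.EQ

open Pool.Agent.K7.H28.GS (Prf exists_prf const_sign deriv_ge)

variable {V : Type} [NormedAddCommGroup V] [InnerProductSpace ℝ V] [FiniteDimensional ℝ V]
  [MeasurableSpace V] [BorelSpace V]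

theorem MJ_zero (G : V → ℝ) (x : V) : MJ G (x, 0) = G x := by
  unfold MJ
  simp only [zero_smul, add_zero]
  rw [integral_mul_const, kr_int, one_mul]

theorem MJ_smooth {G : V → ℝ} (hG : ContDiff ℝ ∞ G) : ContDiff ℝ ∞ (MJ G) := by
  let ζ : ContDiffBump (0 : V) := ⟨1, 2, by norm_num, by norm_num⟩
  have hg : ContDiffOn ℝ ∞ (fun p : (V × ℝ) × V => ζ p.2 • G (p.1.1 - p.1.2 • p.2))
      (univ ×ˢ univ) := by
    apply ContDiff.contDiffOn
    have a1 : ContDiff ℝ ∞ (fun p : (V × ℝ) × V => ζ p.2) := ζ.contDiff.comp contDiff_snd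
    have a2 : ContDiff ℝ ∞ (fun p : (V × ℝ) × V => G (p.1.1 - p.1.2 • p.2)) := by
      apply hG.comp
      fun_prop
    exact a1.smul a2
  have key := contDiffOn_convolution_right_with_param_comp (μ := (volume : Measure (V)))
    (f := kr) (g := fun (p : V × ℝ) (w : V) => ζ w • G (p.1 - p.2 • w))
    (k := closedBall (0 : V) 2) (v := fun _ => 0) (s := univ)
    (n := ⊤) (ContinuousLinearMap.lsmul ℝ ℝ) contDiffOn_const isOpen_univ
    (isCompact_closedBall _ _) (by
      intro p w _ hw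
      rw [mem_closedBall_zero_iff, not_le] at hw
      show ζ w • G (p.1 - p.2 • w) = 0
      rw [ζ.zero_of_le_dist (by rw [dist_zero_right]; exact hw.le), zero_smul])
    kr_integrable.locallyIntegrable hg
  rw [contDiffOn_univ] at key
  convert key using 2 with p
  unfold MJ convolution
  congr 1
  funext s
  simp only [ContinuousLinearMap.lsmul_apply, zero_sub, smul_neg, sub_neg_eq_add]
  by_cases hs : kr s = 0
  · rw [hs, zero_smul, zero_mul]
  · rw [ζ.one_of_mem_closedBall, one_smul, smul_eq_mul]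
    rw [mem_closedBall_zero_iff, norm_neg]
    exact (kr_lt hs).le

/-- derivatives of the mollification -/
theorem MJ_deriv {G : V → ℝ} (hG : ContDiff ℝ ∞ G) (p v : V) (c d : ℝ) :
    HasDerivAt (fun h : ℝ => MJ G (p + h • v, c + h * d))
      (∫ s, kr s * fderiv ℝ G (p + c • s) (v + d • s)) 0 := by
  obtain ⟨F', hF'⟩ : ∃ F' : ℝ → V → ℝ, F' = fun h s =>
      kr s * fderiv ℝ G (p + h • v + (c + h * d) • s) (v + d • s) := ⟨_, rfl⟩
  have hfd : Continuous (fderiv ℝ G) := hG.continuous_fderiv (by simp)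
  have hc : Continuous fun q : ℝ × V =>
      fderiv ℝ G (p + q.1 • v + (c + q.1 * d) • q.2) (v + d • q.2) := by
    refine (hfd.comp ?_).clm_apply ?_ <;> fun_prop
  obtain ⟨B, hB⟩ := ((isCompact_Icc (a := (-1 : ℝ)) (b := 1)).prod
    (isCompact_closedBall (0 : V) 1)).exists_bound_of_continuousOn hc.continuousOn
  have hint : ∀ h : ℝ, Integrable fun s => kr s * G (p + h • v + (c + h * d) • s) := fun h =>
    kr_int_g (hG.continuous.comp (by fun_prop))
  have key := hasDerivAt_integral_of_dominated_loc_of_deriv_le (μ := (volume : Measure (V)))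
    (F := fun (h : ℝ) (s : V) => kr s * G (p + h • v + (c + h * d) • s)) (F' := F') (x₀ := 0)
    (s := ball (0 : ℝ) 1) (bound := fun s => kr s * B)
    (ball_mem_nhds 0 one_pos) (Eventually.of_forall fun h => (hint h).aestronglyMeasurable)
    (hint 0) (by
      rw [hF']
      refine (kr_cont.mul (hc.comp (by fun_prop :
        Continuous fun s : V => ((0 : ℝ), s)))).aestronglyMeasurable)
    (Eventually.of_forall fun s h hh => by
      rw [hF', Real.norm_eq_abs, abs_mul, abs_of_nonneg (kr_nonneg s)]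
      by_cases hs : kr s = 0
      · simp [hs]
      · refine mul_le_mul_of_nonneg_left ?_ (kr_nonneg s)
        rw [mem_ball_zero_iff, Real.norm_eq_abs] at hh
        have h1 := abs_lt.1 hh
        have h2 := hB (h, s) ⟨⟨h1.1.le, h1.2.le⟩, mem_closedBall_zero_iff.2 (kr_lt hs).le⟩
        exact h2) (kr_integrable.mul_const B)
    (Eventually.of_forall fun s h _ => by
      have h1 : HasDerivAt (fun h : ℝ => p + h • v + (c + h * d) • s) (v + d • s) h := by
        have e1 : HasDerivAt (fun h : ℝ => h • v) ((1 : ℝ) • v) h := (hasDerivAt_id h).smul_const v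
        have e2 : HasDerivAt (fun h : ℝ => (c + h * d) • s) ((1 * d) • s) h :=
          (((hasDerivAt_id h).mul_const d).const_add c).smul_const s
        have e3 := (e1.const_add p).add e2
        rw [one_smul, one_mul] at e3
        exact e3
      have h2 : HasFDerivAt G (fderiv ℝ G (p + h • v + (c + h * d) • s))
          (p + h • v + (c + h * d) • s) := ((hG.differentiable (by simp)) _).hasFDerivAt
      have h3 := h2.comp_hasDerivAt h h1
      have h4 := h3.const_mul (kr s)
      rw [hF']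
      exact h4)
  have h5 := key.2
  rw [hF'] at h5
  simp only [zero_smul, add_zero, zero_mul] at h5
  exact h5

theorem unit_normal {L : V →L[ℝ] ℝ} (hL : L ≠ 0) : ∃ (ν : V) (c : ℝ), ‖ν‖ = 1 ∧ 0 < c ∧
    ∀ v, L v = c * inner ℝ ν v := by
  obtain ⟨w, hw⟩ : ∃ w : V, w = (InnerProductSpace.toDual ℝ (V)).symm L := ⟨_, rfl⟩
  have h1 : ∀ v, L v = inner ℝ w v := fun v => by
    rw [hw, InnerProductSpace.toDual_symm_apply]
  have hw0 : w ≠ 0 := by
    intro h0
    apply hL
    ext v
    rw [h1, h0, inner_zero_left]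
    rfl
  have hwn : 0 < ‖w‖ := norm_pos_iff.2 hw0
  refine ⟨‖w‖⁻¹ • w, ‖w‖, ?_, hwn, fun v => ?_⟩
  · rw [norm_smul, norm_inv, norm_norm, inv_mul_cancel₀ hwn.ne']
  · rw [h1, real_inner_smul_left, ← mul_assoc, mul_inv_cancel₀ hwn.ne', one_mul]

theorem fderiv_prf {ψ : ℝ → ℝ} (hψ : Prf ψ) {h : V → ℝ} (hh : ContDiff ℝ ∞ h) (N : ℝ)
    (y v : V) : fderiv ℝ (fun y => ψ (N * h y)) y v =
      deriv ψ (N * h y) * (N * fderiv ℝ h y v) := by
  have h1 : HasFDerivAt h (fderiv ℝ h y) y := ((hh.differentiable (by simp)) y).hasFDerivAt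
  have h2 : HasDerivAt ψ (deriv ψ (N * h y)) (N * h y) :=
    ((hψ.smooth.differentiable (by simp)) _).hasDerivAt
  have h3 : HasFDerivAt (fun y => N * h y) (N • fderiv ℝ h y) y := h1.const_mul N
  have h4 := h2.comp_hasFDerivAt y h3
  have h5 : fderiv ℝ (fun y => ψ (N * h y)) y = deriv ψ (N * h y) • (N • fderiv ℝ h y) :=
    h4.fderiv
  rw [h5]
  rfl

theorem MJ_one {G : V → ℝ} {p : V} {c σ : ℝ}
    (h : ∀ s ∈ ball (0 : V) 1, G (p + c • s) = σ) : MJ G (p, c) = σ := by
  unfold MJ
  have h1 : ∀ s : V, kr s * G (p + c • s) = kr s * σ := by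
    intro s
    by_cases hs : kr s = 0
    · rw [hs, zero_mul, zero_mul]
    · rw [h s (mem_ball_zero_iff.2 (kr_lt hs))]
  simp only [h1]
  rw [integral_mul_const, kr_int, one_mul]

/-- positivity at small scales -/
theorem small_scale {ψ : ℝ → ℝ} (hψ : Prf ψ) {h : V → ℝ} (hh : ContDiff ℝ ∞ h) {N : ℝ}
    (hN : 0 < N) {p ν : V} {c d : ℝ} (hc : 0 ≤ c) (hd : |d| ≤ 1 / 2)
    (hpos : ∀ y, ‖y - p‖ ≤ c → ∀ v, ‖v - ν‖ ≤ 1 / 2 → 0 < fderiv ℝ h y v)
    (h0 : MJ (fun y => ψ (N * h y)) (p, c) = 0) :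
    0 < ∫ s, kr s * fderiv ℝ (fun y => ψ (N * h y)) (p + c • s) (ν + d • s) := by
  have hG : ContDiff ℝ ∞ fun y => ψ (N * h y) := hψ.smooth.comp (contDiff_const.mul hh)
  have hs1 : ∃ s₁ ∈ ball (0 : V) 1, |ψ (N * h (p + c • s₁))| < 1 := by
    by_contra hne
    push Not at hne
    have hcs := const_sign (g := fun s : V => ψ (N * h (p + c • s))) (S := ball 0 1)
      (hG.continuous.comp (by fun_prop : Continuous fun s : V => p + c • s))
      (convex_ball _ _).isPreconnected (fun z => hψ.le _) (fun z hz => not_lt.2 (hne z hz))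
    rcases hcs with h1 | h1
    · rw [MJ_one h1] at h0
      norm_num at h0
    · rw [MJ_one h1] at h0
      norm_num at h0
  obtain ⟨s₁, hs₁, hlt⟩ := hs1
  have hdn : ∀ s : V, ‖s‖ ≤ 1 → ‖ν + d • s - ν‖ ≤ 1 / 2 := by
    intro s hs
    rw [add_sub_cancel_left, norm_smul, Real.norm_eq_abs]
    nlinarith [abs_nonneg d, norm_nonneg s]
  have hcn : ∀ s : V, ‖s‖ ≤ 1 → ‖p + c • s - p‖ ≤ c := by
    intro s hs
    rw [add_sub_cancel_left, norm_smul, Real.norm_of_nonneg hc]
    nlinarith
  have hfd : Continuous (fderiv ℝ fun y => ψ (N * h y)) := hG.continuous_fderiv (by simp)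
  refine Continuous.integral_pos_of_hasCompactSupport_nonneg_nonzero (x := s₁) ?_ ?_ ?_ ?_
  · refine kr_cont.mul ((hfd.comp ?_).clm_apply ?_) <;> fun_prop
  · exact kr_cpt.mul_right
  · intro s
    change 0 ≤ kr s * fderiv ℝ (fun y => ψ (N * h y)) (p + c • s) (ν + d • s)
    by_cases hs : kr s = 0
    · rw [hs, zero_mul]
    · have hs1 := (kr_lt hs).le
      refine mul_nonneg (kr_nonneg s) ?_
      rw [fderiv_prf hψ hh]
      exact mul_nonneg (hψ.dnn _) (mul_nonneg hN.le (hpos _ (hcn s hs1) _ (hdn s hs1)).le)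
  · have hs1 : ‖s₁‖ < 1 := mem_ball_zero_iff.1 hs₁
    have hk : 0 < kr s₁ := by
      have : s₁ ∈ support (kr) := by rw [kr_support]; exact hs₁
      exact lt_of_le_of_ne (kr_nonneg _) (Ne.symm this)
    have h1 : |N * h (p + c • s₁)| < 1 := by
      by_contra hn
      rw [not_lt] at hn
      rcases le_abs.1 hn with h2 | h2
      · rw [hψ.one _ h2, abs_one] at hlt
        exact lt_irrefl _ hlt
      · rw [hψ.neg _ (by linarith), abs_neg, abs_one] at hlt
        exact lt_irrefl _ hlt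
    rw [fderiv_prf hψ hh]
    exact (mul_pos hk (mul_pos (hψ.dpos _ h1) (mul_pos hN
      (hpos _ (hcn s₁ hs1.le) _ (hdn s₁ hs1.le))))).ne'

end Pool.Agent.K7.H28.EQ
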