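import Pool.Agent.K7.H28.EQ.A4

/-!
# Coarse graphs: large scales
-/

set_option autoImplicit false
set_option linter.unusedSectionVars false

open Set Filter Topology Metric Function MeasureTheory
open scoped ContDiff NNReal Convolution

noncomputable section

namespace Pool.Agent.K7.H28.EQ

open Pool.Agent.K7.H28.GS (Prf exists_prf const_sign deriv_ge)

variable {V : Type} [NormedAddCommGroup V] [InnerProductSpace ℝ V] [FiniteDimensional ℝ V]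
  [MeasurableSpace V] [BorelSpace V]

/-- In the ball of radius `r` about `x` the set `h ≥ 0` is mapped into `h > 0` by the vectors of
length about `τ ≥ ε r` in a cone about `ν`. -/
def Crs (θ ε : ℝ) (h : V → ℝ) (x : V) (r : ℝ) (ν : V) : Prop :=
  ∀ (y y' : V) (τ : ℝ), ‖y - x‖ ≤ r → ‖y' - x‖ ≤ r → ε * r ≤ τ → ‖y' - y - τ • ν‖ ≤ θ * τ →
    0 ≤ h y → 0 < h y'

theorem cone_of_coarse {ψ : ℝ → ℝ} (hψ : Prf ψ) {h : V → ℝ} {θ ε δ₀ σ r d N : ℝ} {x p ν : V}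
    (hθ : 0 < θ) (hδ₀ : 0 < δ₀) (hσ : 0 < σ) (hε : 0 ≤ ε) (hεδ : 32 * ε ≤ δ₀) (hr : 8 * σ ≤ r)
    (hr' : r ≤ 32 * σ) (hxp : ‖x - p‖ ≤ 2 * σ) (hC : Crs θ ε h x r ν)
    (hN : ∀ y, |N * h y| < 1 → ∃ x', h x' = 0 ∧ ‖x' - y‖ ≤ d) (hN0 : 0 < N) (hd0 : 0 ≤ d)
    (hd : 4 * d ≤ θ * δ₀ * σ) (hdσ : d ≤ σ) :
    Cone (fun w => ψ (N * h (p + σ • w))) ν (θ / 2) δ₀ := by
  intro w w' τ hw hw' hτ hww
  by_contra hne
  push Not at hne
  obtain ⟨h1, h2⟩ := hne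
  have h1' : -1 < N * h (p + σ • w) := by
    by_contra hn
    exact h1 (hψ.neg _ (not_lt.1 hn))
  have h2' : N * h (p + σ • w') < 1 := by
    by_contra hn
    exact h2 (hψ.one _ (not_lt.1 hn))
  have hy : ∃ y₀, 0 ≤ h y₀ ∧ ‖y₀ - (p + σ • w)‖ ≤ d := by
    rcases le_or_gt 0 (h (p + σ • w)) with h3 | h3
    · exact ⟨_, h3, by rwa [sub_self, norm_zero]⟩
    · have h4 : N * h (p + σ • w) < 0 := mul_neg_of_pos_of_neg hN0 h3
      obtain ⟨x', hx', hxd⟩ := hN _ (abs_lt.2 ⟨h1', by linarith⟩)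
      exact ⟨x', hx'.ge, hxd⟩
  have hy' : ∃ y₀, h y₀ ≤ 0 ∧ ‖y₀ - (p + σ • w')‖ ≤ d := by
    rcases le_or_gt (h (p + σ • w')) 0 with h3 | h3
    · exact ⟨_, h3, by rwa [sub_self, norm_zero]⟩
    · have h4 : 0 < N * h (p + σ • w') := mul_pos hN0 h3
      obtain ⟨x', hx', hxd⟩ := hN _ (abs_lt.2 ⟨by linarith, h2'⟩)
      exact ⟨x', hx'.le, hxd⟩
  obtain ⟨a, ha, had⟩ := hy
  obtain ⟨b, hb, hbd⟩ := hy'
  have hball : ∀ (c w : V), ‖w‖ ≤ 4 → ‖c - (p + σ • w)‖ ≤ d → ‖c - x‖ ≤ r := by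
    intro c w hw hc
    have e : c - x = (c - (p + σ • w)) + σ • w - (x - p) := by abel
    rw [e]
    refine (norm_sub_le _ _).trans ?_
    have e1 := norm_add_le (c - (p + σ • w)) (σ • w)
    rw [norm_smul, Real.norm_of_nonneg hσ.le] at e1
    nlinarith
  have hτ0 : 0 < τ := lt_of_lt_of_le hδ₀ hτ
  have key := hC a b (σ * τ) (hball a w hw had) (hball b w' hw' hbd) (by nlinarith) (by
    have e : b - a - (σ * τ) • ν = (b - (p + σ • w')) - (a - (p + σ • w)) +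
        σ • (w' - w - τ • ν) := by
      rw [smul_sub, smul_sub, smul_smul]
      abel
    rw [e]
    have e1 := norm_add_le ((b - (p + σ • w')) - (a - (p + σ • w))) (σ • (w' - w - τ • ν))
    have e2 := norm_sub_le (b - (p + σ • w')) (a - (p + σ • w))
    rw [norm_smul, Real.norm_of_nonneg hσ.le] at e1
    have e3 : σ * ‖w' - w - τ • ν‖ ≤ σ * (θ / 2 * τ) := mul_le_mul_of_nonneg_left hww hσ.le
    have e4 : θ * δ₀ * σ ≤ θ * τ * σ := by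
      refine mul_le_mul_of_nonneg_right ?_ hσ.le
      exact mul_le_mul_of_nonneg_left hτ hθ.le
    nlinarith) ha
  linarith

theorem MJ_rescale (G : V → ℝ) (p ν : V) (b c' : ℝ) {σ : ℝ} (hσ : σ ≠ 0) :
    MJ G (p + b • ν, c') = ∫ s, kr s * G (p + σ • ((b / σ) • ν + (c' / σ) • s)) := by
  unfold MJ
  congr 1
  funext s
  simp only
  congr 2
  rw [smul_add, smul_smul, smul_smul, mul_div_cancel₀ _ hσ, mul_div_cancel₀ _ hσ, add_assoc]

/-- the increments of the mollification of a coarse graph -/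
theorem incr (θ β : ℝ) (hθ : 0 < θ) (hθ1 : θ ≤ 1) (hβ : 0 < β) (hβ1 : β ≤ 1) :
    ∃ c₀ δ₀ : ℝ, 0 < c₀ ∧ 0 < δ₀ ∧ δ₀ ≤ 1 / 4 ∧ ∀ (G : V → ℝ) (p ν : V) (σ : ℝ), Continuous G →
      (∀ z, |G z| ≤ 1) → ‖ν‖ = 1 → 0 < σ → Cone (fun w => G (p + σ • w)) ν θ δ₀ →
      ∀ b c' : ℝ, 0 < b → b ≤ δ₀ * σ → |c' - σ| ≤ δ₀ * b →
      -(c₀ / 6) * (b / σ) ≤ MJ G (p + b • ν, c') - MJ G (p, σ) ∧
      ((∃ y₀, ‖y₀ - p‖ ≤ (1 - β) * σ ∧ |G y₀| < 1) →
        2 / 3 * c₀ * (b / σ) ≤ MJ G (p + b • ν, c') - MJ G (p, σ)) := by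
  obtain ⟨c₀, δ₀, hc₀, hδ₀, hδ₁, key⟩ := gl (V := V) θ β hθ hθ1 hβ hβ1
  refine ⟨c₀, δ₀, hc₀, hδ₀, hδ₁, ?_⟩
  intro G p ν σ hG hG1 hν hσ hcone b c' hb hb1 hc'
  have hgc : Continuous fun w : V => G (p + σ • w) := hG.comp (by fun_prop)
  have h1 := key (fun w => G (p + σ • w)) ν hgc (fun z => hG1 _) hν hcone (b / σ) (c' / σ)
    (by positivity) (by rwa [div_le_iff₀ hσ]) (by
      have e : c' / σ - 1 = (c' - σ) / σ := by field_simp
      rw [e, abs_div, abs_of_pos hσ, div_le_iff₀ hσ]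
      refine hc'.trans (le_of_eq ?_)
      field_simp)
  have e1 : (∫ s, kr s * G (p + σ • ((b / σ) • ν + (c' / σ) • s))) = MJ G (p + b • ν, c') :=
    (MJ_rescale G p ν b c' hσ.ne').symm
  have e2 : (∫ s, kr s * G (p + σ • s)) = MJ G (p, σ) := rfl
  rw [e1, e2] at h1
  refine ⟨h1.1, fun hy => h1.2 ?_⟩
  obtain ⟨y₀, hy1, hy2⟩ := hy
  refine ⟨σ⁻¹ • (y₀ - p), ?_, ?_⟩
  · rw [norm_smul, norm_inv, Real.norm_of_nonneg hσ.le, inv_mul_le_iff₀ hσ]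
    linarith
  · rw [smul_smul, mul_inv_cancel₀ hσ.ne', one_smul, add_sub_cancel]
    exact hy2

theorem MJ_neg (G : V → ℝ) (q : V × ℝ) : MJ (fun y => -G y) q = -MJ G q := by
  unfold MJ
  rw [← integral_neg]
  congr 1
  funext s
  ring

/-- alternatives for the values of the mollification -/
theorem alt : ∃ β : ℝ, 0 < β ∧ β ≤ 1 / 2 ∧ ∀ (G : V → ℝ) (p : V) (σ : ℝ),
    Continuous G → (∀ z, |G z| ≤ 1) → 0 < σ →
    (∃ y₀, ‖y₀ - p‖ ≤ (1 - β) * σ ∧ |G y₀| < 1) ∨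
    ((∀ y, ‖y - p‖ ≤ (1 - β) * σ → G y = 1) ∧ 1 / 2 ≤ MJ G (p, σ)) ∨
    ((∀ y, ‖y - p‖ ≤ (1 - β) * σ → G y = -1) ∧ MJ G (p, σ) ≤ -1 / 2) := by
  obtain ⟨β, hβ, hβ1, key⟩ := sign_half (V := V)
  refine ⟨β, hβ, hβ1, fun G p σ hG hG1 hσ => ?_⟩
  by_cases h : ∃ y₀, ‖y₀ - p‖ ≤ (1 - β) * σ ∧ |G y₀| < 1
  · exact Or.inl h
  · push Not at h
    right
    have h1 := const_sign hG (S := closedBall p ((1 - β) * σ)) (convex_closedBall _ _).isPreconnected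
      hG1 (fun z hz => not_lt.2 (h z (by rwa [mem_closedBall, dist_eq_norm] at hz)))
    have hin : ∀ z : V, ‖z‖ ≤ 1 - β → ‖p + σ • z - p‖ ≤ (1 - β) * σ := by
      intro z hz
      rw [add_sub_cancel_left, norm_smul, Real.norm_of_nonneg hσ.le, mul_comm]
      exact mul_le_mul_of_nonneg_right hz hσ.le
    have hgc : Continuous fun w : V => G (p + σ • w) := hG.comp (by fun_prop)
    rcases h1 with h1 | h1
    · left
      have h2 : ∀ y, ‖y - p‖ ≤ (1 - β) * σ → G y = 1 := fun y hy =>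
        h1 y (by rwa [mem_closedBall, dist_eq_norm])
      exact ⟨h2, key (fun w => G (p + σ • w)) hgc (fun z => hG1 _) fun z hz => h2 _ (hin z hz)⟩
    · right
      have h2 : ∀ y, ‖y - p‖ ≤ (1 - β) * σ → G y = -1 := fun y hy =>
        h1 y (by rwa [mem_closedBall, dist_eq_norm])
      refine ⟨h2, ?_⟩
      have h3 := key (fun w => -G (p + σ • w)) hgc.neg (fun z => by rw [abs_neg]; exact hG1 _)
        fun z hz => by rw [h2 _ (hin z hz), neg_neg]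
      have h4 : (∫ s, kr s * -G (p + σ • s)) = -MJ G (p, σ) := MJ_neg G (p, σ)
      rw [h4] at h3
      linarith

end Pool.Agent.K7.H28.EQ
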