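import Pool.Agent.K7.H28.EQ.A6

/-!
# Two invariant hypersurfaces which are coarse graphs in common directions
-/

set_option autoImplicit false
set_option linter.unusedSectionVars false

open Set Filter Topology Metric Function MeasureTheory
open scoped ContDiff NNReal Convolution

noncomputable section

namespace Pool.Agent.K7.H28.EQ

open Pool.Agent.K7.H28.GS (Prf exists_prf const_sign deriv_ge)

variable {V : Type} [NormedAddCommGroup V] [InnerProductSpace ℝ V] [FiniteDimensional ℝ V]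
  [MeasurableSpace V] [BorelSpace V]

theorem smooth2 {ψ : ℝ → ℝ} (hψ : Prf ψ) {Γ : Set ((V ≃ₗᵢ[ℝ] V) × V)} {h k ρ : V → ℝ} (hh : DfnE Γ h) (hk : DfnE Γ k) {ε : ℝ}
    (hρ : Scl ε ρ) (N : ℝ) : ContDiff ℝ ∞ (fun q : V × ℝ =>
      (1 - q.2) * MJ (fun y => ψ (N * h y)) (q.1, ρ q.1 / 16) +
        q.2 * MJ (fun y => ψ (N * k y)) (q.1, ρ q.1 / 16)) := by
  have hG : ContDiff ℝ ∞ fun y => ψ (N * h y) := hψ.smooth.comp (contDiff_const.mul hh.smooth)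
  have hG' : ContDiff ℝ ∞ fun y => ψ (N * k y) := hψ.smooth.comp (contDiff_const.mul hk.smooth)
  have h1 : ContDiff ℝ ∞ fun q : V × ℝ => (q.1, ρ q.1 / 16) :=
    contDiff_fst.prodMk ((hρ.smooth.comp contDiff_fst).div_const _)
  exact ((contDiff_const.sub contDiff_snd).mul ((MJ_smooth hG).comp h1)).add
    (contDiff_snd.mul ((MJ_smooth hG').comp h1))

theorem regular2 {θ β c₀ δ₀ ε : ℝ} (hθ : 0 < θ) (hc₀ : 0 < c₀) (hδ₀ : 0 < δ₀) (hδ₁ : δ₀ ≤ 1 / 4)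
    (hε : 0 ≤ ε) (hεδ : 32 * ε ≤ δ₀) (hβ : 0 < β) (hβ1 : β ≤ 1 / 2)
    (hI : IncrP V (θ / 2) β c₀ δ₀) (hA : AltP V β)
    {ψ : ℝ → ℝ} (hψ : Prf ψ) {Γ : Set ((V ≃ₗᵢ[ℝ] V) × V)} {h k ρ : V → ℝ} (hh : DfnE Γ h) (hk : DfnE Γ k) (hρ : Scl ε ρ) (hρinv : ∀ γ ∈ Γ, ∀ x, ρ (act γ x) = ρ x)
    (hC : ∀ x, h x * k x = 0 → ∃ ν : V, ‖ν‖ = 1 ∧ Crs θ ε h x (ρ x) ν ∧ Crs θ ε k x (ρ x) ν)
    (hclose : ∀ y, h y * k y < 0 → ∃ x, h x * k x = 0 ∧ ‖x - y‖ ≤ ρ y / 32) :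
    ∃ N₀ : ℝ, 0 < N₀ ∧ ∀ N, N₀ ≤ N → ∀ (p : V) (t : ℝ), 0 ≤ t → t ≤ 1 →
      (1 - t) * MJ (fun y => ψ (N * h y)) (p, ρ p / 16) +
        t * MJ (fun y => ψ (N * k y)) (p, ρ p / 16) = 0 → ∃ v : V,
        fderiv ℝ (fun q : V × ℝ => (1 - q.2) * MJ (fun y => ψ (N * h y)) (q.1, ρ q.1 / 16) +
          q.2 * MJ (fun y => ψ (N * k y)) (q.1, ρ q.1 / 16)) (p, t) (v, 0) ≠ 0 := by
  obtain ⟨K₁, c₁, hK₁, hc₁, hR₁⟩ := hh.far
  obtain ⟨K₂, c₂, hK₂, hc₂, hR₂⟩ := hk.far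
  obtain ⟨m, hm, hmK⟩ : ∃ m : ℝ, 0 < m ∧ ∀ y ∈ K₁ ∪ K₂, m ≤ ρ y := by
    rcases (K₁ ∪ K₂).eq_empty_or_nonempty with h0 | h0
    · exact ⟨1, one_pos, fun y hy => by rw [h0] at hy; exact absurd hy (notMem_empty y)⟩
    · obtain ⟨y₀, hy₀, hmin⟩ := (hK₁.union hK₂).exists_isMinOn h0 hρ.smooth.continuous.continuousOn
      exact ⟨ρ y₀, hρ.pos _, fun y hy => hmin hy⟩
  have hmρ : ∀ y : V, (h y < c₁ ∨ k y < c₂) → m ≤ ρ y := by
    intro y hy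
    rcases hy with hy | hy
    · obtain ⟨γ, hγ, hyK⟩ := hR₁ y hy
      rw [← hρinv γ hγ]
      exact hmK _ (Or.inl hyK)
    · obtain ⟨γ, hγ, hyK⟩ := hR₂ y hy
      rw [← hρinv γ hγ]
      exact hmK _ (Or.inr hyK)
  obtain ⟨d, hdd⟩ : ∃ d : ℝ, d = min (m / 32) (θ * δ₀ * m / 128) := ⟨_, rfl⟩
  have hd0 : 0 < d := by rw [hdd]; exact lt_min (by positivity) (by positivity)
  have hd1 : d ≤ m / 32 := by rw [hdd]; exact min_le_left _ _
  have hd2 : d ≤ θ * δ₀ * m / 128 := by rw [hdd]; exact min_le_right _ _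
  obtain ⟨κ₁, hκ₁, hlay₁⟩ := layer hh hd0
  obtain ⟨κ₂, hκ₂, hlay₂⟩ := layer hk hd0
  refine ⟨1 / κ₁ + 1 / κ₂ + 1 / c₁ + 1 / c₂, by positivity, ?_⟩
  intro N hN p t ht0 ht1 hzero
  have p1 : 0 < 1 / κ₁ := by positivity
  have p2 : 0 < 1 / κ₂ := by positivity
  have p3 : 0 < 1 / c₁ := by positivity
  have p4 : 0 < 1 / c₂ := by positivity
  have hN0 : 0 < N := by linarith
  have hNq : ∀ κ : ℝ, 0 < κ → 1 / κ ≤ N → 1 ≤ N * κ := by
    intro κ hκ h1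
    rwa [div_le_iff₀ hκ] at h1
  have hlay1' : ∀ y, |N * h y| < 1 → ∃ x', h x' = 0 ∧ ‖x' - y‖ ≤ d := by
    intro y hy
    apply hlay₁
    rw [abs_mul, abs_of_pos hN0] at hy
    have h1 := hNq κ₁ hκ₁ (by linarith)
    nlinarith [abs_nonneg (h y)]
  have hlay2' : ∀ y, |N * k y| < 1 → ∃ x', k x' = 0 ∧ ‖x' - y‖ ≤ d := by
    intro y hy
    apply hlay₂
    rw [abs_mul, abs_of_pos hN0] at hy
    have h1 := hNq κ₂ hκ₂ (by linarith)
    nlinarith [abs_nonneg (k y)]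
  have hGs : ContDiff ℝ ∞ fun y => ψ (N * h y) := hψ.smooth.comp (contDiff_const.mul hh.smooth)
  have hGs' : ContDiff ℝ ∞ fun y => ψ (N * k y) := hψ.smooth.comp (contDiff_const.mul hk.smooth)
  have hG1 : ∀ z, |ψ (N * h z)| ≤ 1 := fun z => hψ.le _
  have hG1' : ∀ z, |ψ (N * k z)| ≤ 1 := fun z => hψ.le _
  have hlt : ∀ a : ℝ, |ψ a| < 1 → |a| < 1 := by
    intro a ha
    by_contra hn
    rw [not_lt] at hn
    rcases le_abs.1 hn with h2 | h2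
    · rw [hψ.one _ h2, abs_one] at ha
      exact lt_irrefl _ ha
    · rw [hψ.neg _ (by linarith), abs_neg, abs_one] at ha
      exact lt_irrefl _ ha
  have hin1 : ∀ y : V, |ψ (N * h y)| < 1 → h y < c₁ ∨ k y < c₂ := by
    intro y hy
    left
    by_contra hn
    have h1 := not_lt.1 hn
    have h2 := hNq c₁ hc₁ (by linarith)
    have h3 := (abs_lt.1 (hlt _ hy)).2
    nlinarith
  have hin2 : ∀ y : V, |ψ (N * k y)| < 1 → h y < c₁ ∨ k y < c₂ := by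
    intro y hy
    right
    by_contra hn
    have h1 := not_lt.1 hn
    have h2 := hNq c₂ hc₂ (by linarith)
    have h3 := (abs_lt.1 (hlt _ hy)).2
    nlinarith
  obtain ⟨σ, hσd⟩ : ∃ σ : ℝ, σ = ρ p / 16 := ⟨_, rfl⟩
  have hρp := hρ.pos p
  have hσ0 : 0 < σ := by rw [hσd]; positivity
  have hσ16 : ρ p = 16 * σ := by rw [hσd]; ring
  have hFs := smooth2 hψ hh hk hρ N
  rw [← hσd] at hzero
  have hε1 : ε ≤ 1 := by linarith
  -- consequences of a point of transition near `p`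
  have main : ∀ y₀ : V, ‖y₀ - p‖ ≤ σ → (h y₀ < c₁ ∨ k y₀ < c₂) →
      ((∃ x, h x = 0 ∧ ‖x - y₀‖ ≤ d) ∨ ∃ x, k x = 0 ∧ ‖x - y₀‖ ≤ d) →
      ∃ ν : V, ‖ν‖ = 1 ∧ Cone (fun w => ψ (N * h (p + σ • w))) ν (θ / 2) δ₀ ∧
        Cone (fun w => ψ (N * k (p + σ • w))) ν (θ / 2) δ₀ := by
    intro y₀ hy1 hyR hy2
    have hσm : m / 32 ≤ σ := by
      have h1 := (abs_le.1 (hρ.lip y₀ p)).2
      have h2 : ε * ‖y₀ - p‖ ≤ 1 * σ := mul_le_mul hε1 hy1 (norm_nonneg _) zero_le_one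
      have h3 := hmρ y₀ hyR
      linarith
    obtain ⟨x, hx, hxd⟩ : ∃ x, h x * k x = 0 ∧ ‖x - y₀‖ ≤ d := by
      rcases hy2 with ⟨x, hx, hxd⟩ | ⟨x, hx, hxd⟩
      · exact ⟨x, by rw [hx, zero_mul], hxd⟩
      · exact ⟨x, by rw [hx, mul_zero], hxd⟩
    have hxp : ‖x - p‖ ≤ 2 * σ := by
      have e1 : x - p = (x - y₀) + (y₀ - p) := by abel
      rw [e1]
      refine (norm_add_le _ _).trans ?_
      linarith
    have hρx := abs_le.1 (hρ.lip x p)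
    have h2 : ε * ‖x - p‖ ≤ 1 * (2 * σ) := mul_le_mul hε1 hxp (norm_nonneg _) zero_le_one
    obtain ⟨ν, hν, hcr1, hcr2⟩ := hC x hx
    have h4d : 4 * d ≤ θ * δ₀ * σ := by
      have e1 : θ * δ₀ * (m / 32) ≤ θ * δ₀ * σ := mul_le_mul_of_nonneg_left hσm (by positivity)
      linarith
    refine ⟨ν, hν, ?_, ?_⟩
    · exact cone_of_coarse hψ hθ hδ₀ hσ0 hε hεδ (by linarith [hρx.1]) (by linarith [hρx.2]) hxp hcr1
        hlay1' hN0 hd0.le h4d (by linarith)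
    · exact cone_of_coarse hψ hθ hδ₀ hσ0 hε hεδ (by linarith [hρx.1]) (by linarith [hρx.2]) hxp hcr2
        hlay2' hN0 hd0.le h4d (by linarith)
  -- from increments to the derivative
  have fin : ∀ (ν : V) (e₁ e₂ : ℝ), ‖ν‖ = 1 → 1 / 9 ≤ (1 - t) * e₁ + t * e₂ →
      (∀ b, 0 < b → b ≤ δ₀ * σ → e₁ * c₀ * (b / σ) ≤ MJ (fun y => ψ (N * h y))
        (p + b • ν, ρ (p + b • ν) / 16) - MJ (fun y => ψ (N * h y)) (p, σ)) →
      (∀ b, 0 < b → b ≤ δ₀ * σ → e₂ * c₀ * (b / σ) ≤ MJ (fun y => ψ (N * k y))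
        (p + b • ν, ρ (p + b • ν) / 16) - MJ (fun y => ψ (N * k y)) (p, σ)) →
      ∃ v : V, fderiv ℝ (fun q : V × ℝ => (1 - q.2) * MJ (fun y => ψ (N * h y))
        (q.1, ρ q.1 / 16) + q.2 * MJ (fun y => ψ (N * k y)) (q.1, ρ q.1 / 16)) (p, t) (v, 0) ≠ 0 := by
    intro ν e₁ e₂ hν he h1 h2
    refine ⟨ν, ?_⟩
    have h3 := line_deriv hFs p ν t
    have h4 : 1 / 9 * c₀ / σ ≤ fderiv ℝ (fun q : V × ℝ => (1 - q.2) * MJ (fun y => ψ (N * h y))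
        (q.1, ρ q.1 / 16) + q.2 * MJ (fun y => ψ (N * k y)) (q.1, ρ q.1 / 16)) (p, t) (ν, 0) := by
      refine deriv_ge h3 (δ := δ₀ * σ) (by positivity) fun b hb hb1 => ?_
      simp only [zero_smul, add_zero]
      rw [← hσd]
      have g1 := mul_le_mul_of_nonneg_left (h1 b hb hb1) (sub_nonneg.2 ht1)
      have g2 := mul_le_mul_of_nonneg_left (h2 b hb hb1) ht0
      have hq : 0 < c₀ * (b / σ) := by positivity
      have g3 : 1 / 9 * c₀ / σ * b ≤ ((1 - t) * e₁ + t * e₂) * (c₀ * (b / σ)) := by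
        have e1 : 1 / 9 * c₀ / σ * b = 1 / 9 * (c₀ * (b / σ)) := by ring
        rw [e1]
        exact mul_le_mul_of_nonneg_right he hq.le
      nlinarith
    have h5 : 0 < 1 / 9 * c₀ / σ := by positivity
    exact (lt_of_lt_of_le h5 h4).ne'
  have hcc : ∀ (ν : V) (b : ℝ), ‖ν‖ = 1 → 0 < b → |ρ (p + b • ν) / 16 - σ| ≤ δ₀ * b := by
    intro ν b hν hb
    have h4 := hρ.lip (p + b • ν) p
    rw [add_sub_cancel_left, norm_smul, hν, mul_one, Real.norm_of_nonneg hb.le] at h4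
    have h5 : ρ (p + b • ν) / 16 - σ = (ρ (p + b • ν) - ρ p) / 16 := by
      rw [hσd]
      ring
    rw [h5, abs_div, abs_of_pos (by norm_num : (0 : ℝ) < 16), div_le_iff₀ (by norm_num)]
    have h7 : ε * b ≤ δ₀ * b := mul_le_mul_of_nonneg_right (by linarith) hb.le
    have h8 : 0 ≤ δ₀ * b := by positivity
    linarith
  -- the increments
  have inc : ∀ (G : V → ℝ) (ν : V), Continuous G → (∀ z, |G z| ≤ 1) → ‖ν‖ = 1 →
      Cone (fun w => G (p + σ • w)) ν (θ / 2) δ₀ → (∀ b, 0 < b → b ≤ δ₀ * σ →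
        -(1 / 6) * c₀ * (b / σ) ≤ MJ G (p + b • ν, ρ (p + b • ν) / 16) - MJ G (p, σ)) ∧
      ((∃ y₀, ‖y₀ - p‖ ≤ (1 - β) * σ ∧ |G y₀| < 1) → ∀ b, 0 < b → b ≤ δ₀ * σ →
        2 / 3 * c₀ * (b / σ) ≤ MJ G (p + b • ν, ρ (p + b • ν) / 16) - MJ G (p, σ)) := by
    intro G ν hG hGb hν hcone
    refine ⟨fun b hb hb1 => ?_, fun hy b hb hb1 => ?_⟩
    · have h1 := (hI G p ν σ hG hGb hν hσ0 hcone b _ hb hb1 (hcc ν b hν hb)).1
      refine le_trans (le_of_eq ?_) h1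
      ring
    · exact (hI G p ν σ hG hGb hν hσ0 hcone b _ hb hb1 (hcc ν b hν hb)).2 hy
  have hβσ : (1 - β) * σ ≤ σ := by nlinarith
  have a1 := hA (fun y => ψ (N * h y)) p σ hGs.continuous hG1 hσ0
  have a2 := hA (fun y => ψ (N * k y)) p σ hGs'.continuous hG1' hσ0
  rcases a1 with a1 | a1
  · obtain ⟨y₀, hy1, hy2⟩ := a1
    obtain ⟨ν, hν, hcone1, hcone2⟩ := main y₀ (hy1.trans hβσ) (hin1 y₀ hy2)
      (Or.inl (hlay1' y₀ (hlt _ hy2)))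
    have i1 := inc _ ν hGs.continuous hG1 hν hcone1
    have i2 := inc _ ν hGs'.continuous hG1' hν hcone2
    rcases a2 with a2 | a2
    · exact fin ν (2 / 3) (2 / 3) hν (by linarith) (i1.2 ⟨y₀, hy1, hy2⟩) (i2.2 a2)
    · have hb : 1 / 2 ≤ |MJ (fun y => ψ (N * k y)) (p, σ)| := by
        rcases a2 with a2 | a2
        · exact a2.2.trans (le_abs_self _)
        · rw [le_abs]
          right
          linarith [a2.2]
      have hle : |MJ (fun y => ψ (N * h y)) (p, σ)| ≤ 1 := by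
        unfold MJ
        have h1 : ‖∫ s : V, kr s * (fun y => ψ (N * h y)) ((p, σ).1 + (p, σ).2 • s)‖ ≤
            ∫ s : V, kr s := by
          refine norm_integral_le_of_norm_le kr_integrable (Eventually.of_forall fun s => ?_)
          rw [norm_mul, Real.norm_of_nonneg (kr_nonneg s), Real.norm_eq_abs]
          exact mul_le_of_le_one_right (kr_nonneg s) (hG1 _)
        rw [kr_int] at h1
        exact h1
      have ht : t ≤ 2 / 3 := by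
        have h1 : t * |MJ (fun y => ψ (N * k y)) (p, σ)| =
            (1 - t) * |MJ (fun y => ψ (N * h y)) (p, σ)| := by
          have h2 : t * MJ (fun y => ψ (N * k y)) (p, σ) =
              -((1 - t) * MJ (fun y => ψ (N * h y)) (p, σ)) := by linarith
          have h3 := congrArg abs h2
          rw [abs_neg, abs_mul, abs_mul, abs_of_nonneg ht0, abs_of_nonneg (sub_nonneg.2 ht1)] at h3
          exact h3
        have h4 := mul_le_mul_of_nonneg_left hb ht0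
        have h5 := mul_le_mul_of_nonneg_left hle (sub_nonneg.2 ht1)
        linarith
      exact fin ν (2 / 3) (-(1 / 6)) hν (by linarith) (i1.2 ⟨y₀, hy1, hy2⟩) i2.1
  · rcases a2 with a2 | a2
    · obtain ⟨y₀, hy1, hy2⟩ := a2
      obtain ⟨ν, hν, hcone1, hcone2⟩ := main y₀ (hy1.trans hβσ) (hin2 y₀ hy2)
        (Or.inr (hlay2' y₀ (hlt _ hy2)))
      have i1 := inc _ ν hGs.continuous hG1 hν hcone1
      have i2 := inc _ ν hGs'.continuous hG1' hν hcone2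
      have hb : 1 / 2 ≤ |MJ (fun y => ψ (N * h y)) (p, σ)| := by
        rcases a1 with a1 | a1
        · exact a1.2.trans (le_abs_self _)
        · rw [le_abs]
          right
          linarith [a1.2]
      have hle : |MJ (fun y => ψ (N * k y)) (p, σ)| ≤ 1 := by
        unfold MJ
        have h1 : ‖∫ s : V, kr s * (fun y => ψ (N * k y)) ((p, σ).1 + (p, σ).2 • s)‖ ≤
            ∫ s : V, kr s := by
          refine norm_integral_le_of_norm_le kr_integrable (Eventually.of_forall fun s => ?_)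
          rw [norm_mul, Real.norm_of_nonneg (kr_nonneg s), Real.norm_eq_abs]
          exact mul_le_of_le_one_right (kr_nonneg s) (hG1' _)
        rw [kr_int] at h1
        exact h1
      have ht : 1 - t ≤ 2 / 3 := by
        have h1 : t * |MJ (fun y => ψ (N * k y)) (p, σ)| =
            (1 - t) * |MJ (fun y => ψ (N * h y)) (p, σ)| := by
          have h2 : t * MJ (fun y => ψ (N * k y)) (p, σ) =
              -((1 - t) * MJ (fun y => ψ (N * h y)) (p, σ)) := by linarith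
          have h3 := congrArg abs h2
          rw [abs_neg, abs_mul, abs_mul, abs_of_nonneg ht0, abs_of_nonneg (sub_nonneg.2 ht1)] at h3
          exact h3
        have h4 := mul_le_mul_of_nonneg_left hb (sub_nonneg.2 ht1)
        have h5 := mul_le_mul_of_nonneg_left hle ht0
        linarith
      exact fin ν (-(1 / 6)) (2 / 3) hν (by linarith) i1.1 (i2.2 ⟨y₀, hy1, hy2⟩)
    · -- no transition near `p`
      exfalso
      have hnear : ∀ y : V, ‖y - p‖ ≤ (1 - β) * σ → h y * k y ≠ 0 := by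
        intro y hy h0
        rcases mul_eq_zero.1 h0 with h1 | h1
        · rcases a1 with a1 | a1
          · have := a1.1 y hy
            simp only [h1, mul_zero, hψ.zero] at this
            norm_num at this
          · have := a1.1 y hy
            simp only [h1, mul_zero, hψ.zero] at this
            norm_num at this
        · rcases a2 with a2 | a2
          · have := a2.1 y hy
            simp only [h1, mul_zero, hψ.zero] at this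
            norm_num at this
          · have := a2.1 y hy
            simp only [h1, mul_zero, hψ.zero] at this
            norm_num at this
      have hopp : ¬ h p * k p < 0 := by
        intro hneg
        obtain ⟨x, hx, hxd⟩ := hclose p hneg
        refine hnear x (hxd.trans ?_) hx
        rw [hσ16]
        nlinarith
      have hpp : ‖p - p‖ ≤ (1 - β) * σ := by
        rw [sub_self, norm_zero]
        exact mul_nonneg (by linarith) hσ0.le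
      have hs : ∀ a : ℝ, (ψ (N * a) = 1 → 0 < a) ∧ (ψ (N * a) = -1 → a < 0) := by
        intro a
        constructor
        · intro h1
          have h2 : 0 < N * a := (hψ.pos _).1 (by rw [h1]; exact one_pos)
          exact (mul_pos_iff_of_pos_left hN0).1 h2
        · intro h1
          have h2 : N * a < 0 := (hψ.sneg _).1 (by rw [h1]; norm_num)
          by_contra hn
          exact absurd h2 (not_lt.2 (mul_nonneg hN0.le (not_lt.1 hn)))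
      rcases a1 with a1 | a1 <;> rcases a2 with a2 | a2
      · have g1 := mul_le_mul_of_nonneg_left a1.2 (sub_nonneg.2 ht1)
        have g2 := mul_le_mul_of_nonneg_left a2.2 ht0
        linarith
      · exact hopp (mul_neg_of_pos_of_neg ((hs _).1 (a1.1 p hpp)) ((hs _).2 (a2.1 p hpp)))
      · exact hopp (mul_neg_of_neg_of_pos ((hs _).2 (a1.1 p hpp)) ((hs _).1 (a2.1 p hpp)))
      · have g1 := mul_le_mul_of_nonneg_left a1.2 (sub_nonneg.2 ht1)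
        have g2 := mul_le_mul_of_nonneg_left a2.2 ht0
        linarith


theorem exists_constants (θ : ℝ) (hθ : 0 < θ) (hθ1 : θ ≤ 1) :
    ∃ β c₀ δ₀ : ℝ, 0 < β ∧ β ≤ 1 / 2 ∧ 0 < c₀ ∧ 0 < δ₀ ∧ δ₀ ≤ 1 / 4 ∧ IncrP V (θ / 2) β c₀ δ₀ ∧
      AltP V β := by
  obtain ⟨β, hβ, hβ1, hA⟩ := alt (V := V)
  obtain ⟨c₀, δ₀, h1, h2, h3, h4⟩ := incr (V := V) (θ / 2) β (by positivity) (by linarith) hβ
    (by linarith)
  exact ⟨β, c₀, δ₀, hβ, hβ1, h1, h2, h3, h4, hA⟩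

/-- an equivariant diffeomorphism, the identity off the translates of a compact set -/
def Eqv (Γ : Set ((V ≃ₗᵢ[ℝ] V) × V)) (Φ Ψ : V → V) : Prop :=
  ContDiff ℝ ∞ Φ ∧ ContDiff ℝ ∞ Ψ ∧ (∀ x, Ψ (Φ x) = x) ∧ (∀ x, Φ (Ψ x) = x) ∧
    (∀ γ ∈ Γ, ∀ x, Φ (act γ x) = act γ (Φ x)) ∧
    ∃ K : Set V, IsCompact K ∧ ∀ x, (∀ γ ∈ Γ, act γ x ∉ K) → Φ x = x

theorem act_inj (γ : (V ≃ₗᵢ[ℝ] V) × V) {x y : V} (h : act γ x = act γ y) : x = y := by
  unfold act at h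
  exact γ.1.injective (add_right_cancel h)

theorem Eqv.symm {Γ : Set ((V ≃ₗᵢ[ℝ] V) × V)} {Φ Ψ : V → V} (h : Eqv Γ Φ Ψ) : Eqv Γ Ψ Φ := by
  obtain ⟨h1, h2, h3, h4, h5, K, hK, hR⟩ := h
  refine ⟨h2, h1, h4, h3, fun γ hγ x => ?_, K, hK, fun x hx => ?_⟩
  · have h6 := h5 γ hγ (Ψ x)
    rw [h4] at h6
    rw [← h6, h3]
  · have h6 := h3 x
    rw [hR x hx] at h6
    exact h6

theorem Eqv.comp {Γ : Set ((V ≃ₗᵢ[ℝ] V) × V)} {Φ Ψ Φ' Ψ' : V → V} (h : Eqv Γ Φ Ψ)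
    (h' : Eqv Γ Φ' Ψ') : Eqv Γ (fun x => Φ' (Φ x)) fun x => Ψ (Ψ' x) := by
  obtain ⟨h1, h2, h3, h4, h5, K, hK, hR⟩ := h
  obtain ⟨g1, g2, g3, g4, g5, K', hK', hR'⟩ := h'
  refine ⟨g1.comp h1, h2.comp g2, fun x => ?_, fun x => ?_, fun γ hγ x => ?_, K ∪ K', hK.union hK',
    fun x hx => ?_⟩
  · simp only [g3, h3]
  · simp only [h4, g4]
  · simp only [h5 γ hγ, g5 γ hγ]
  · simp only
    rw [hR x fun γ hγ hm => hx γ hγ (Or.inl hm), hR' x fun γ hγ hm => hx γ hγ (Or.inr hm)]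

/-- points where the mollification is less than one -/
theorem near_of_lt {ψ : ℝ → ℝ} (hψ : Prf ψ) {h : V → ℝ} {c N : ℝ} (hc : 0 < c) (hN : 1 / c ≤ N)
    {p : V} {σ : ℝ} (hσ : 0 ≤ σ) (hlt : ¬ 1 ≤ MJ (fun y => ψ (N * h y)) (p, σ)) :
    ∃ y, ‖y - p‖ ≤ σ ∧ h y < c := by
  by_contra hno
  push Not at hno
  apply hlt
  rw [MJ_one (σ := 1) fun s hs => ?_]
  rw [mem_ball_zero_iff] at hs
  refine hψ.one _ ?_
  have h1 := hno (p + σ • s) (by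
    rw [add_sub_cancel_left, norm_smul, Real.norm_of_nonneg hσ]
    nlinarith)
  have hN1 : 1 ≤ N * c := by rwa [div_le_iff₀ hc] at hN
  have hN0 : 0 < N := lt_of_lt_of_le (by positivity) hN
  nlinarith

/-- a compact set whose translates contain the neighbourhood -/
theorem near_compact {Γ : Set ((V ≃ₗᵢ[ℝ] V) × V)} {ρ : V → ℝ} {ε : ℝ} (hε1 : ε ≤ 1)
    (hρ : Scl ε ρ) (hρinv : ∀ γ ∈ Γ, ∀ x, ρ (act γ x) = ρ x) {K : Set V} (hK : IsCompact K) :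
    ∃ K' : Set V, IsCompact K' ∧ ∀ (p y : V), ‖y - p‖ ≤ ρ p / 16 → (∃ γ ∈ Γ, act γ y ∈ K) →
      ∃ γ ∈ Γ, act γ p ∈ K' := by
  obtain ⟨M, hM⟩ := hK.exists_bound_of_continuousOn (f := ρ) hρ.smooth.continuous.continuousOn
  refine ⟨cthickening (max M 0) K, hK.cthickening, fun p y hy hyK => ?_⟩
  obtain ⟨γ, hγ, hm⟩ := hyK
  refine ⟨γ, hγ, ?_⟩
  have h1 := hM _ hm
  rw [Real.norm_of_nonneg (hρ.pos _).le, hρinv γ hγ] at h1
  have h2 := (abs_le.1 (hρ.lip y p)).1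
  have h3 : ε * ‖y - p‖ ≤ 1 * (ρ p / 16) := mul_le_mul hε1 hy (norm_nonneg _) zero_le_one
  have h4 := hρ.pos p
  refine mem_cthickening_of_dist_le _ (act γ y) _ _ hm ?_
  rw [dist_eq_norm, act_dist, norm_sub_rev]
  refine hy.trans (le_trans ?_ (le_max_left _ _))
  linarith

/-- the isotopy through the scales, for one hypersurface -/
theorem through_scales {θ β c₀ δ₀ ε : ℝ} (hθ : 0 < θ) (hc₀ : 0 < c₀) (hδ₀ : 0 < δ₀)
    (hδ₁ : δ₀ ≤ 1 / 4)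
    (hε : 0 ≤ ε) (hεδ : 32 * ε ≤ δ₀) (hβ : 0 < β) (hI : IncrP V (θ / 2) β c₀ δ₀) (hA : AltP V β)
    {ψ : ℝ → ℝ} (hψ : Prf ψ) {Γ : Set ((V ≃ₗᵢ[ℝ] V) × V)} {h ρ : V → ℝ} (hh : DfnE Γ h)
    (hρ : Scl ε ρ) (hρinv : ∀ γ ∈ Γ, ∀ x, ρ (act γ x) = ρ x)
    (hC : ∀ x, h x = 0 → ∀ r, 0 < r → r ≤ ρ x → ∃ ν : V, ‖ν‖ = 1 ∧ Crs θ ε h x r ν) :
    ∃ N₀ : ℝ, 0 < N₀ ∧ ∀ N, N₀ ≤ N → ∃ Φ Ψ : V → V, Eqv Γ Φ Ψ ∧
      ∀ x, (0 < MJ (fun y => ψ (N * h y)) (Φ x, ρ (Φ x) / 16) ↔ 0 < h x) ∧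
        (MJ (fun y => ψ (N * h y)) (Φ x, ρ (Φ x) / 16) < 0 ↔ h x < 0) := by
  obtain ⟨N₁, hN₁, hreg⟩ := regular1 hθ hc₀ hδ₀ hδ₁ hε hεδ hβ hI hA hψ hh hρ hC
  obtain ⟨K, c, hK, hc, hfar⟩ := hh.far
  obtain ⟨K', hK', hnear⟩ := near_compact (by linarith : ε ≤ 1) hρ hρinv hK
  refine ⟨max N₁ (1 / c), lt_max_of_lt_left hN₁, ?_⟩
  intro N hN
  have hNa : N₁ ≤ N := (le_max_left _ _).trans hN
  have hNb : 1 / c ≤ N := (le_max_right _ _).trans hN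
  have hN0 : 0 < N := hN₁.trans_le hNa
  have hGinv : ∀ γ ∈ Γ, ∀ x, ψ (N * h (act γ x)) = ψ (N * h x) := fun γ hγ x => by
    rw [hh.inv γ hγ]
  obtain ⟨Φ, Ψ, h1, h2, h3, h4, h5, h6, h7⟩ := level_isoE Γ
    (fun q : V × ℝ => MJ (fun y => ψ (N * h y)) (q.1, q.2 * ρ q.1 / 16)) (smooth1 hψ hh hρ N)
    (fun γ hγ x t => by
      simp only
      rw [MJ_inv (G := fun y => ψ (N * h y)) (hGinv γ hγ), hρinv γ hγ])
    K' hK' one_pos (fun x t ht0 ht1 hlt => by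
      have hρx := hρ.pos x
      obtain ⟨y, hy, hyc⟩ := near_of_lt hψ hc hNb (p := x) (σ := t * ρ x / 16) (by positivity)
        (fun hge => absurd (lt_of_le_of_lt (le_abs_self _) hlt) (not_lt.2 hge))
      exact hnear x y (hy.trans (by nlinarith)) (hfar y hyc))
    (fun x t ht0 ht1 h0 => hreg N hNa x t ht0 ht1 h0)
  refine ⟨Φ, Ψ, ⟨h1, h2, h3, h4, h5, K', hK', h6⟩, fun x => ?_⟩
  have h8 := h7 x
  simp only [zero_mul, zero_div, one_mul] at h8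
  rw [MJ_zero, hψ.pos, hψ.sneg] at h8
  refine ⟨h8.1.trans ?_, h8.2.trans ?_⟩
  · exact mul_pos_iff_of_pos_left hN0
  · constructor
    · intro h8
      by_contra hn
      exact absurd h8 (not_lt.2 (mul_nonneg hN0.le (not_lt.1 hn)))
    · exact fun h8 => mul_neg_of_pos_of_neg hN0 h8

/-- the main theorem, with the measurable structure -/
theorem mainM (θ : ℝ) (hθ : 0 < θ) (hθ1 : θ ≤ 1) : ∃ ε : ℝ, 0 < ε ∧
    ∀ (Γ : Set ((V ≃ₗᵢ[ℝ] V) × V)) (h k ρ : V → ℝ), DfnE Γ h → DfnE Γ k → Scl ε ρ →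
      (∀ γ ∈ Γ, ∀ x, ρ (act γ x) = ρ x) →
      (∀ x, h x = 0 → ∀ r, 0 < r → r ≤ ρ x → ∃ ν : V, ‖ν‖ = 1 ∧ Crs θ ε h x r ν) →
      (∀ x, k x = 0 → ∀ r, 0 < r → r ≤ ρ x → ∃ ν : V, ‖ν‖ = 1 ∧ Crs θ ε k x r ν) →
      (∀ x, h x * k x = 0 → ∃ ν : V, ‖ν‖ = 1 ∧ Crs θ ε h x (ρ x) ν ∧ Crs θ ε k x (ρ x) ν) →
      (∀ y, h y * k y < 0 → ∃ x, h x * k x = 0 ∧ ‖x - y‖ ≤ ρ y / 32) →
      ∃ Φ Ψ : V → V, Eqv Γ Φ Ψ ∧ ∀ x, (0 < k (Φ x) ↔ 0 < h x) ∧ (k (Φ x) < 0 ↔ h x < 0) := by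
  obtain ⟨β, c₀, δ₀, hβ, hβ1, hc₀, hδ₀, hδ₁, hI, hA⟩ := exists_constants (V := V) θ hθ hθ1
  obtain ⟨ψ, hψ⟩ := exists_prf
  refine ⟨δ₀ / 32, by positivity, ?_⟩
  intro Γ h k ρ hh hk hρ hρinv hC1 hC2 hC hclose
  have hε : 0 ≤ δ₀ / 32 := by positivity
  have hεδ : 32 * (δ₀ / 32) ≤ δ₀ := by linarith
  obtain ⟨N₁, hN₁, H1⟩ := through_scales hθ hc₀ hδ₀ hδ₁ hε hεδ hβ hI hA hψ hh hρ hρinv hC1
  obtain ⟨N₂, hN₂, H2⟩ := through_scales hθ hc₀ hδ₀ hδ₁ hε hεδ hβ hI hA hψ hk hρ hρinv hC2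
  obtain ⟨N₃, hN₃, H3⟩ := regular2 hθ hc₀ hδ₀ hδ₁ hε hεδ hβ hβ1 hI hA hψ hh hk hρ hρinv hC hclose
  obtain ⟨K₁, c₁, hK₁, hc₁, hfar₁⟩ := hh.far
  obtain ⟨K₂, c₂, hK₂, hc₂, hfar₂⟩ := hk.far
  obtain ⟨K', hK', hnear⟩ := near_compact (by linarith : δ₀ / 32 ≤ 1) hρ hρinv (hK₁.union hK₂)
  have q1 : 0 < 1 / c₁ := by positivity
  have q2 : 0 < 1 / c₂ := by positivity
  obtain ⟨N, hNd⟩ : ∃ N : ℝ, N = N₁ + N₂ + N₃ + 1 / c₁ + 1 / c₂ := ⟨_, rfl⟩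
  obtain ⟨Φ₁, Ψ₁, g1, s1⟩ := H1 N (by linarith)
  obtain ⟨Φ₂, Ψ₂, g2, s2⟩ := H2 N (by linarith)
  have hGinv : ∀ γ ∈ Γ, ∀ x, ψ (N * h (act γ x)) = ψ (N * h x) := fun γ hγ x => by
    rw [hh.inv γ hγ]
  have hGinv' : ∀ γ ∈ Γ, ∀ x, ψ (N * k (act γ x)) = ψ (N * k x) := fun γ hγ x => by
    rw [hk.inv γ hγ]
  obtain ⟨Φ₃, Ψ₃, a1, a2, a3, a4, a5, a6, s3⟩ := level_isoE Γ
    (fun q : V × ℝ => (1 - q.2) * MJ (fun y => ψ (N * h y)) (q.1, ρ q.1 / 16) +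
      q.2 * MJ (fun y => ψ (N * k y)) (q.1, ρ q.1 / 16)) (smooth2 hψ hh hk hρ N)
    (fun γ hγ x t => by
      simp only
      rw [MJ_inv (G := fun y => ψ (N * h y)) (hGinv γ hγ),
        MJ_inv (G := fun y => ψ (N * k y)) (hGinv' γ hγ), hρinv γ hγ])
    K' hK' one_pos (fun x t ht0 ht1 hlt => by
      have hρx := hρ.pos x
      by_cases hA1 : 1 ≤ MJ (fun y => ψ (N * h y)) (x, ρ x / 16)
      · by_cases hA2 : 1 ≤ MJ (fun y => ψ (N * k y)) (x, ρ x / 16)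
        · exfalso
          have e1 := mul_le_mul_of_nonneg_left hA1 (sub_nonneg.2 ht1)
          have e2 := mul_le_mul_of_nonneg_left hA2 ht0
          have e3 := (abs_lt.1 hlt).2
          simp only at e3
          linarith
        · obtain ⟨y, hy, hyc⟩ := near_of_lt hψ hc₂ (by linarith) (by positivity) hA2
          obtain ⟨γ, hγ, hm⟩ := hfar₂ y hyc
          exact hnear x y hy ⟨γ, hγ, Or.inr hm⟩
      · obtain ⟨y, hy, hyc⟩ := near_of_lt hψ hc₁ (by linarith) (by positivity) hA1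
        obtain ⟨γ, hγ, hm⟩ := hfar₁ y hyc
        exact hnear x y hy ⟨γ, hγ, Or.inl hm⟩)
    (fun x t ht0 ht1 h0 => H3 N (by linarith) x t ht0 ht1 h0)
  have g3 : Eqv Γ Φ₃ Ψ₃ := ⟨a1, a2, a3, a4, a5, K', hK', a6⟩
  refine ⟨_, _, (g1.comp g3).comp g2.symm, fun x => ?_⟩
  have e1 := s1 x
  have e3 := s3 (Φ₁ x)
  simp only [sub_self, zero_mul, one_mul, zero_add, sub_zero, add_zero] at e3
  have e2 := s2 (Ψ₂ (Φ₃ (Φ₁ x)))
  rw [g2.2.2.2.1] at e2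
  exact ⟨(e2.1.symm.trans e3.1).trans e1.1, (e2.2.symm.trans e3.2).trans e1.2⟩

end Pool.Agent.K7.H28.EQ
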