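import Pool.Agent.K7.H28.EQ.A7

/-!
# The main theorem on invariant hypersurfaces which are coarse graphs
-/

set_option autoImplicit false
set_option linter.unusedSectionVars false

open Set Filter Topology Metric Function MeasureTheory
open scoped ContDiff NNReal

noncomputable section

namespace Pool.Agent.K7.H28.EQ

/-- the main theorem -/
theorem mainE (V : Type) [NormedAddCommGroup V] [InnerProductSpace ℝ V] [FiniteDimensional ℝ V]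
    (θ : ℝ) (hθ : 0 < θ) (hθ1 : θ ≤ 1) : ∃ ε : ℝ, 0 < ε ∧
    ∀ (Γ : Set ((V ≃ₗᵢ[ℝ] V) × V)) (h k ρ : V → ℝ), DfnE Γ h → DfnE Γ k → Scl ε ρ →
      (∀ γ ∈ Γ, ∀ x, ρ (act γ x) = ρ x) →
      (∀ x, h x = 0 → ∀ r, 0 < r → r ≤ ρ x → ∃ ν : V, ‖ν‖ = 1 ∧ Crs θ ε h x r ν) →
      (∀ x, k x = 0 → ∀ r, 0 < r → r ≤ ρ x → ∃ ν : V, ‖ν‖ = 1 ∧ Crs θ ε k x r ν) →
      (∀ x, h x * k x = 0 → ∃ ν : V, ‖ν‖ = 1 ∧ Crs θ ε h x (ρ x) ν ∧ Crs θ ε k x (ρ x) ν) →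
      (∀ y, h y * k y < 0 → ∃ x, h x * k x = 0 ∧ ‖x - y‖ ≤ ρ y / 32) →
      ∃ Φ Ψ : V → V, Eqv Γ Φ Ψ ∧ ∀ x, (0 < k (Φ x) ↔ 0 < h x) ∧ (k (Φ x) < 0 ↔ h x < 0) := by
  letI : MeasurableSpace V := borel V
  haveI : BorelSpace V := ⟨rfl⟩
  obtain ⟨ε, hε, H⟩ := mainM (V := V) θ hθ hθ1
  refine ⟨ε, hε, ?_⟩
  intro Γ h k ρ hh hk hρ hρinv hC1 hC2 hC hclose
  exact H Γ h k ρ ⟨hh.smooth, hh.inv, hh.regular, hh.far⟩ ⟨hk.smooth, hk.inv, hk.regular, hk.far⟩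
    ⟨hρ.smooth, hρ.pos, hρ.slow⟩ hρinv hC1 hC2 hC hclose

end Pool.Agent.K7.H28.EQ
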