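import Pool.Agent.K7.H28.EQ.A9

/-!
# Periodic hypersurfaces of `ℝ⁵`
-/

set_option autoImplicit false

open Set Filter Topology Metric Function
open scoped ContDiff NNReal

noncomputable section

namespace Pool.Agent.K7.H28.EQ.P1

abbrev R5 : Type := EuclideanSpace ℝ (Fin 5)

/-- the translation `x₀ ↦ x₀ + 1` with `x₁ ↦ s x₁` -/
def T (s : ℤˣ) (x : R5) : R5 := WithLp.toLp 2 ![x 0 + 1, ((s : ℤ) : ℝ) * x 1, x 2, x 3, x 4]

/-- the norm of `(x₁, x₂, x₃, x₄)` -/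
def rad (x : R5) : ℝ := Real.sqrt (x 1 ^ 2 + x 2 ^ 2 + x 3 ^ 2 + x 4 ^ 2)

/-- the powers of `T` -/
def sh (s : ℤˣ) (m : ℤ) (x : R5) : R5 :=
  WithLp.toLp 2 ![x 0 + m, (((s ^ m : ℤˣ) : ℤ) : ℝ) * x 1, x 2, x 3, x 4]

theorem sh_step (s : ℤˣ) (m : ℤ) (x : R5) : sh s (m + 1) x = T s (sh s m x) := by
  unfold sh T
  ext i
  fin_cases i
  · simp
    ring
  · simp [zpow_add_one]
    ring
  · simp
  · simp
  · simp

theorem sh_zero (s : ℤˣ) (x : R5) : sh s 0 x = x := by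
  unfold sh
  ext i
  fin_cases i <;> simp

theorem sh_inv {s : ℤˣ} {h : R5 → ℝ} (hT : ∀ x, h (T s x) = h x) (m : ℤ) (x : R5) :
    h (sh s m x) = h x := by
  induction m using Int.induction_on with
  | zero => rw [sh_zero]
  | succ i ih => rw [sh_step, hT, ih]
  | pred i ih =>
    rw [← ih]
    have h1 := sh_step s (-(i : ℤ) - 1) x
    rw [sub_add_cancel] at h1
    rw [h1, hT]

/-- the linear part -/
def A (u : ℤˣ) : R5 ≃ₗᵢ[ℝ] R5 :=
  LinearIsometryEquiv.piLpCongrRight 2 fun i : Fin 5 =>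
    if i = 1 ∧ u = -1 then LinearIsometryEquiv.neg ℝ else LinearIsometryEquiv.refl ℝ ℝ

theorem A_apply (u : ℤˣ) (x : R5) (i : Fin 5) :
    A u x i = if i = 1 then ((u : ℤ) : ℝ) * x i else x i := by
  unfold A
  rw [LinearIsometryEquiv.piLpCongrRight_apply]
  simp only
  by_cases h1 : i = 1
  · rcases Int.units_eq_one_or u with h2 | h2
    · have h3 : ¬ (i = 1 ∧ u = -1) := by
        rintro ⟨_, h4⟩
        rw [h2] at h4
        exact absurd h4 (by decide)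
      simp [h1, h2]
    · simp [h1, h2]
  · simp [h1]

/-- the isometries `T ^ m` -/
def gm (s : ℤˣ) (m : ℤ) : (R5 ≃ₗᵢ[ℝ] R5) × R5 := (A (s ^ m), EuclideanSpace.single 0 (m : ℝ))

theorem act_gm (s : ℤˣ) (m : ℤ) (x : R5) : act (gm s m) x = sh s m x := by
  unfold act gm sh
  ext i
  simp only [PiLp.add_apply, A_apply]
  fin_cases i <;> simp

theorem act_one (s : ℤˣ) (x : R5) : act (gm s 1) x = T s x := by
  rw [act_gm]
  have h1 := sh_step s 0 x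
  rwa [zero_add, sh_zero] at h1

/-- the group generated by `T` -/
def Gm (s : ℤˣ) : Set ((R5 ≃ₗᵢ[ℝ] R5) × R5) := range (gm s)

theorem inv_of {s : ℤˣ} {h : R5 → ℝ} (hT : ∀ x, h (T s x) = h x) : ∀ γ ∈ Gm s, ∀ x,
    h (act γ x) = h x := by
  rintro γ ⟨m, rfl⟩ x
  rw [act_gm, sh_inv hT]

theorem rad_sh (s : ℤˣ) (m : ℤ) (x : R5) : rad (sh s m x) = rad x := by
  unfold rad sh
  rcases Int.units_eq_one_or (s ^ m) with h | h <;> simp [h]

theorem rad_T (s : ℤˣ) (x : R5) : rad (T s x) = rad x := by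
  rw [← act_one, act_gm, rad_sh]

/-- the fundamental domain -/
def Dm (R : ℝ) : Set R5 := {x | 0 ≤ x 0 ∧ x 0 ≤ 1 ∧ rad x ≤ R}

theorem rad_cont : Continuous rad := by
  unfold rad
  fun_prop

theorem norm_sq (x : R5) : ‖x‖ ^ 2 = x 0 ^ 2 + rad x ^ 2 := by
  unfold rad
  rw [EuclideanSpace.norm_eq, Real.sq_sqrt (by positivity), Real.sq_sqrt (by positivity),
    Fin.sum_univ_five]
  simp only [Real.norm_eq_abs, sq_abs]
  ring

theorem rad_nonneg (x : R5) : 0 ≤ rad x := Real.sqrt_nonneg _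

theorem rad_le (x : R5) : rad x ≤ ‖x‖ := by
  have h1 := norm_sq x
  have h2 := rad_nonneg x
  nlinarith [norm_nonneg x, sq_nonneg (x 0)]

theorem Dm_compact (R : ℝ) : IsCompact (Dm R) := by
  refine (isCompact_closedBall (0 : R5) (1 + |R|)).of_isClosed_subset ?_ ?_
  · have c0 : Continuous fun x : R5 => x 0 := by fun_prop
    exact (isClosed_le continuous_const c0).inter
      ((isClosed_le c0 continuous_const).inter (isClosed_le rad_cont continuous_const))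
  · rintro x ⟨h1, h2, h3⟩
    rw [mem_closedBall_zero_iff]
    have h4 := norm_sq x
    have h5 := rad_nonneg x
    have h6 : rad x ≤ |R| := h3.trans (le_abs_self R)
    have h7 : ‖x‖ ^ 2 ≤ (1 + |R|) ^ 2 := by
      rw [h4]
      nlinarith [abs_nonneg R]
    exact abs_le_of_sq_le_sq' h7 (by positivity) |>.2

theorem exists_shift (s : ℤˣ) {R : ℝ} {x : R5} (hx : rad x ≤ R) :
    ∃ γ ∈ Gm s, act γ x ∈ Dm R := by
  refine ⟨gm s (-⌊x 0⌋), ⟨_, rfl⟩, ?_⟩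
  rw [act_gm]
  refine ⟨?_, ?_, by rwa [rad_sh]⟩
  · unfold sh
    have := Int.floor_le (x 0)
    simp
    linarith
  · unfold sh
    have := Int.lt_floor_add_one (x 0)
    simp
    linarith

theorem dfn_of {s : ℤˣ} {h : R5 → ℝ} (h1 : ContDiff ℝ ∞ h) (h2 : ∀ x, h (T s x) = h x)
    (h3 : ∀ x, h x = 0 → fderiv ℝ h x ≠ 0) {R c : ℝ} (hc : 0 < c)
    (h4 : ∀ x, R ≤ rad x → c ≤ h x) : DfnE (Gm s) h :=
  ⟨h1, inv_of h2, h3, Dm R, c, Dm_compact R, hc, fun x hx => exists_shift s (by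
    by_contra hn
    exact absurd (h4 x (not_le.1 hn).le) (not_le.2 hx))⟩

theorem rad_act {s : ℤˣ} {γ : (R5 ≃ₗᵢ[ℝ] R5) × R5} (hγ : γ ∈ Gm s) (x : R5) :
    rad (act γ x) = rad x := by
  obtain ⟨m, rfl⟩ := hγ
  rw [act_gm, rad_sh]

theorem of_eqv {s : ℤˣ} {Φ Ψ : R5 → R5} (h : Eqv (Gm s) Φ Ψ) :
    (∀ x, Φ (T s x) = T s (Φ x)) ∧ ∃ R : ℝ, ∀ x, R ≤ rad x → Φ x = x := by
  obtain ⟨_, _, _, _, h5, K, hK, hR⟩ := h
  refine ⟨fun x => ?_, ?_⟩
  · have h6 := h5 (gm s 1) ⟨1, rfl⟩ x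
    rwa [act_one, act_one] at h6
  · obtain ⟨R, hR'⟩ := hK.isBounded.exists_norm_le
    refine ⟨R + 1, fun x hx => hR x fun γ hγ hm => ?_⟩
    have h1 := hR' _ hm
    have h2 := rad_le (act γ x)
    rw [rad_act hγ] at h2
    linarith

end Pool.Agent.K7.H28.EQ.P1
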