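import Pool.Agent.K7.H28.EQ.P1
import Pool.Agent.K7.H28.EQ.A10

/-!
# The standard periodic hypersurface of `ℝ⁵`
-/

set_option autoImplicit false

open Set Filter Topology Metric Function
open scoped ContDiff NNReal

noncomputable section

namespace Pool.Agent.K7.H28.EQ.P1

/-- the standard defining function -/
def k0 (x : R5) : ℝ := x 1 ^ 2 + x 2 ^ 2 + x 3 ^ 2 + x 4 ^ 2 - 1

theorem k0_rad (x : R5) : k0 x = rad x ^ 2 - 1 := by
  unfold k0 rad
  rw [Real.sq_sqrt (by positivity)]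

theorem k0_smooth : ContDiff ℝ ∞ k0 := by
  unfold k0
  fun_prop

theorem k0_T (s : ℤˣ) (x : R5) : k0 (T s x) = k0 x := by
  rw [k0_rad, k0_rad, rad_T]

theorem k0_regular (x : R5) (hx : k0 x = 0) : fderiv ℝ k0 x ≠ 0 := by
  intro h0
  obtain ⟨v, hv⟩ : ∃ v : R5, v = WithLp.toLp 2 ![0, x 1, x 2, x 3, x 4] := ⟨_, rfl⟩
  have h1 : HasDerivAt (fun t : ℝ => k0 (x + t • v)) (fderiv ℝ k0 x v) 0 := by
    have e1 : HasDerivAt (fun t : ℝ => x + t • v) ((1 : ℝ) • v) 0 :=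
      ((hasDerivAt_id (0 : ℝ)).smul_const v).const_add x
    rw [one_smul] at e1
    have e2 : HasFDerivAt k0 (fderiv ℝ k0 x) (x + (0 : ℝ) • v) := by
      rw [zero_smul, add_zero]
      exact ((k0_smooth.differentiable (by simp)) x).hasFDerivAt
    exact e2.comp_hasDerivAt (0 : ℝ) e1
  have h2 : (fun t : ℝ => k0 (x + t • v)) = fun t : ℝ => (1 + t) * (1 + t) * (k0 x + 1) - 1 := by
    funext t
    rw [hv]
    unfold k0
    simp
    ring
  rw [h2, hx, h0] at h1
  have h3 : HasDerivAt (fun t : ℝ => (1 + t) * (1 + t) * (0 + 1) - 1)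
      ((1 * (1 + 0) + (1 + 0) * 1) * (0 + 1)) (0 : ℝ) := by
    have e1 : HasDerivAt (fun t : ℝ => 1 + t) 1 0 := (hasDerivAt_id (0 : ℝ)).const_add 1
    exact ((e1.mul e1).mul_const (0 + 1)).sub_const 1
  have h4 := h1.unique h3
  norm_num at h4

theorem k0_far (x : R5) (hx : 2 ≤ rad x) : 3 ≤ k0 x := by
  rw [k0_rad]
  nlinarith

theorem k0_pos (x : R5) : 0 < k0 x ↔ 1 < rad x := by
  rw [k0_rad]
  have := rad_nonneg x
  constructor
  · intro h
    nlinarith
  · intro h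
    nlinarith

theorem k0_le (x : R5) : k0 x ≤ 0 ↔ rad x ≤ 1 := by
  rw [← not_lt, k0_pos, not_lt]

theorem k0_zero (x : R5) : k0 x = 0 ↔ rad x = 1 := by
  rw [k0_rad]
  have := rad_nonneg x
  constructor
  · intro h
    nlinarith
  · intro h
    rw [h]
    norm_num

end Pool.Agent.K7.H28.EQ.P1
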